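import Mathlib

set_option autoImplicit false

/-!
A convex body in `ℝ³` that is not covered by five of its proper translates.
-/

namespace Helper580.PT

open Set

/-- the basic constraint -/
def Q (a b c : ℝ) : Prop :=
  max a 0 + max b 0 ≤ 1 ∧ (max c 0) ^ 2 ≤ (1 - max a 0 - max b 0) * (1 + max a 0)

/-- the constraint for the three cyclic orders -/
def Q3 (a b c : ℝ) : Prop := Q a b c ∧ Q b c a ∧ Q c a b

/-- the body -/
def K : Set (Fin 3 → ℝ) := {x |
  Q3 (x 0) (x 1) (x 2) ∧ Q3 (x 0) (-x 1) (-x 2) ∧ Q3 (-x 0) (x 1) (-x 2) ∧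
  Q3 (-x 0) (-x 1) (x 2) ∧
  Q3 (x 1) (x 0) (-x 2) ∧ Q3 (-x 1) (x 0) (x 2) ∧ Q3 (x 1) (-x 0) (x 2) ∧
  Q3 (-x 1) (-x 0) (-x 2)}

theorem aux_cone {u1 v1 c1 u2 v2 c2 : ℝ} (hu1 : 0 ≤ u1) (hv1 : 0 ≤ v1) (hu2 : 0 ≤ u2)
    (hv2 : 0 ≤ v2) (h1 : c1 ^ 2 ≤ u1 * v1) (h2 : c2 ^ 2 ≤ u2 * v2) :
    2 * (c1 * c2) ≤ u1 * v2 + u2 * v1 := by
  have hs : 0 ≤ u1 * v2 + u2 * v1 := by positivity
  have h3 : (c1 * c2) ^ 2 ≤ (u1 * v1) * (u2 * v2) := by
    rw [mul_pow]
    exact mul_le_mul h1 h2 (sq_nonneg _) (by positivity)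
  have h4 : (2 * (c1 * c2)) ^ 2 ≤ (u1 * v2 + u2 * v1) ^ 2 := by
    nlinarith [sq_nonneg (u1 * v2 - u2 * v1)]
  exact (abs_le_of_sq_le_sq' h4 hs).2

theorem max_comb {l m a b : ℝ} (hl : 0 ≤ l) (hm : 0 ≤ m) :
    max (l * a + m * b) 0 ≤ l * max a 0 + m * max b 0 := by
  apply max_le
  · exact add_le_add (mul_le_mul_of_nonneg_left (le_max_left _ _) hl)
      (mul_le_mul_of_nonneg_left (le_max_left _ _) hm)
  · have := le_max_right a 0
    have := le_max_right b 0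
    positivity

theorem Q_comb {a1 b1 c1 a2 b2 c2 l m : ℝ} (h1 : Q a1 b1 c1) (h2 : Q a2 b2 c2) (hl : 0 ≤ l)
    (hm : 0 ≤ m) (hlm : l + m = 1) :
    Q (l * a1 + m * a2) (l * b1 + m * b2) (l * c1 + m * c2) := by
  obtain ⟨p1, q1⟩ := h1
  obtain ⟨p2, q2⟩ := h2
  have ha := max_comb (a := a1) (b := a2) hl hm
  have hb := max_comb (a := b1) (b := b2) hl hm
  have hc := max_comb (a := c1) (b := c2) hl hm
  have a0 : 0 ≤ max (l * a1 + m * a2) 0 := le_max_right _ _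
  have b0 : 0 ≤ max (l * b1 + m * b2) 0 := le_max_right _ _
  have c0 : 0 ≤ max (l * c1 + m * c2) 0 := le_max_right _ _
  have A1 : 0 ≤ max a1 0 := le_max_right _ _
  have A2 : 0 ≤ max a2 0 := le_max_right _ _
  have B1 : 0 ≤ max b1 0 := le_max_right _ _
  have B2 : 0 ≤ max b2 0 := le_max_right _ _
  have C1 : 0 ≤ max c1 0 := le_max_right _ _
  have C2 : 0 ≤ max c2 0 := le_max_right _ _
  unfold Q
  generalize max (l * a1 + m * a2) 0 = a at *
  generalize max (l * b1 + m * b2) 0 = b at *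
  generalize max (l * c1 + m * c2) 0 = c at *
  generalize max a1 0 = A1' at *
  generalize max a2 0 = A2' at *
  generalize max b1 0 = B1' at *
  generalize max b2 0 = B2' at *
  generalize max c1 0 = C1' at *
  generalize max c2 0 = C2' at *
  have hS1 : l * A1' + m * A2' + (l * B1' + m * B2') ≤ 1 := by nlinarith
  constructor
  · linarith
  · have hcone := aux_cone (u1 := 1 - A1' - B1') (v1 := 1 + A1') (u2 := 1 - A2' - B2')
      (v2 := 1 + A2') (by linarith) (by linarith) (by linarith) (by linarith) q1 q2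
    set A := l * A1' + m * A2' with hA
    set B := l * B1' + m * B2' with hB
    set C := l * C1' + m * C2' with hC
    have hC2 : C ^ 2 ≤ (1 - A - B) * (1 + A) := by
      have e1 : 1 - A - B = l * (1 - A1' - B1') + m * (1 - A2' - B2') := by
        rw [hA, hB]; linear_combination -hlm
      have e2 : 1 + A = l * (1 + A1') + m * (1 + A2') := by
        rw [hA]; linear_combination -hlm
      rw [e1, e2, hC]
      have t1 : l ^ 2 * C1' ^ 2 ≤ l ^ 2 * ((1 - A1' - B1') * (1 + A1')) :=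
        mul_le_mul_of_nonneg_left q1 (sq_nonneg _)
      have t2 : m ^ 2 * C2' ^ 2 ≤ m ^ 2 * ((1 - A2' - B2') * (1 + A2')) :=
        mul_le_mul_of_nonneg_left q2 (sq_nonneg _)
      have t3 : (l * m) * (2 * (C1' * C2')) ≤
          (l * m) * ((1 - A1' - B1') * (1 + A2') + (1 - A2' - B2') * (1 + A1')) :=
        mul_le_mul_of_nonneg_left hcone (mul_nonneg hl hm)
      nlinarith
    have hc2 : c ^ 2 ≤ C ^ 2 := pow_le_pow_left₀ c0 hc 2
    have hAB : (1 - A - B) * (1 + A) ≤ (1 - a - b) * (1 + a) := by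
      have hA0 : 0 ≤ A := a0.trans ha
      have hB0 : 0 ≤ B := b0.trans hb
      nlinarith [mul_nonneg a0 b0, mul_nonneg (sub_nonneg.2 ha) b0,
        mul_nonneg (sub_nonneg.2 hb) hA0, mul_nonneg (sub_nonneg.2 ha) a0,
        mul_nonneg (sub_nonneg.2 ha) hA0]
    exact hc2.trans (hC2.trans hAB)

theorem Q3_comb {a1 b1 c1 a2 b2 c2 l m : ℝ} (h1 : Q3 a1 b1 c1) (h2 : Q3 a2 b2 c2) (hl : 0 ≤ l)
    (hm : 0 ≤ m) (hlm : l + m = 1) :
    Q3 (l * a1 + m * a2) (l * b1 + m * b2) (l * c1 + m * c2) :=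
  ⟨Q_comb h1.1 h2.1 hl hm hlm, Q_comb h1.2.1 h2.2.1 hl hm hlm, Q_comb h1.2.2 h2.2.2 hl hm hlm⟩

theorem convex_K : Convex ℝ K := by
  intro x hx y hy l m hl hm hlm
  have e : ∀ i, (l • x + m • y) i = l * x i + m * y i := fun i => by simp
  have en : ∀ i, -(l * x i + m * y i) = l * (-x i) + m * (-y i) := fun i => by ring
  obtain ⟨x1, x2, x3, x4, x5, x6, x7, x8⟩ := hx
  obtain ⟨y1, y2, y3, y4, y5, y6, y7, y8⟩ := hy
  change Q3 _ _ _ ∧ Q3 _ _ _ ∧ Q3 _ _ _ ∧ Q3 _ _ _ ∧ Q3 _ _ _ ∧ Q3 _ _ _ ∧ Q3 _ _ _ ∧ Q3 _ _ _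
  simp only [e, en]
  exact ⟨Q3_comb x1 y1 hl hm hlm, Q3_comb x2 y2 hl hm hlm, Q3_comb x3 y3 hl hm hlm,
    Q3_comb x4 y4 hl hm hlm, Q3_comb x5 y5 hl hm hlm, Q3_comb x6 y6 hl hm hlm,
    Q3_comb x7 y7 hl hm hlm, Q3_comb x8 y8 hl hm hlm⟩

theorem closed_Q {f g h : (Fin 3 → ℝ) → ℝ} (hf : Continuous f) (hg : Continuous g)
    (hh : Continuous h) : IsClosed {x | Q (f x) (g x) (h x)} := by
  have mf : Continuous fun x => max (f x) 0 := hf.max continuous_const
  have mg : Continuous fun x => max (g x) 0 := hg.max continuous_const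
  have mh : Continuous fun x => max (h x) 0 := hh.max continuous_const
  have e : {x | Q (f x) (g x) (h x)} = {x | max (f x) 0 + max (g x) 0 ≤ 1} ∩
      {x | (max (h x) 0) ^ 2 ≤ (1 - max (f x) 0 - max (g x) 0) * (1 + max (f x) 0)} := by
    ext x; rfl
  rw [e]
  exact (isClosed_le (mf.add mg) continuous_const).inter
    (isClosed_le (mh.pow 2) (((continuous_const.sub mf).sub mg).mul (continuous_const.add mf)))

theorem closed_Q3 {f g h : (Fin 3 → ℝ) → ℝ} (hf : Continuous f) (hg : Continuous g)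
    (hh : Continuous h) : IsClosed {x | Q3 (f x) (g x) (h x)} :=
  (closed_Q hf hg hh).inter ((closed_Q hg hh hf).inter (closed_Q hh hf hg))

theorem closed_K : IsClosed K := by
  unfold K
  refine IsClosed.inter (closed_Q3 (by fun_prop) (by fun_prop) (by fun_prop)) ?_
  refine IsClosed.inter (closed_Q3 (by fun_prop) (by fun_prop) (by fun_prop)) ?_
  refine IsClosed.inter (closed_Q3 (by fun_prop) (by fun_prop) (by fun_prop)) ?_
  refine IsClosed.inter (closed_Q3 (by fun_prop) (by fun_prop) (by fun_prop)) ?_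
  refine IsClosed.inter (closed_Q3 (by fun_prop) (by fun_prop) (by fun_prop)) ?_
  refine IsClosed.inter (closed_Q3 (by fun_prop) (by fun_prop) (by fun_prop)) ?_
  refine IsClosed.inter (closed_Q3 (by fun_prop) (by fun_prop) (by fun_prop)) ?_
  exact closed_Q3 (by fun_prop) (by fun_prop) (by fun_prop)

theorem bound_of_Q {a b c : ℝ} (h : Q a b c) : a ≤ 1 := by
  have h1 := le_max_left a 0
  have h2 := le_max_right b 0
  linarith [h.1]

theorem compact_K : IsCompact K := by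
  refine IsCompact.of_isClosed_subset (isCompact_Icc (a := fun _ : Fin 3 => (-1 : ℝ))
    (b := fun _ => (1 : ℝ))) closed_K ?_
  intro x hx
  obtain ⟨x1, x2, x3, x4, x5, x6, x7, x8⟩ := hx
  have a0 := bound_of_Q x1.1
  have a1 := bound_of_Q x1.2.1
  have a2 := bound_of_Q x1.2.2
  have b0 := bound_of_Q x3.1
  have b1 := bound_of_Q x2.2.1
  have b2 := bound_of_Q x2.2.2
  constructor
  · intro i; fin_cases i <;> simp <;> linarith
  · intro i; fin_cases i <;> simp <;> linarith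

theorem Q_small {a b c : ℝ} (ha : a ≤ 1 / 4) (hb : b ≤ 1 / 4) (hc : c ≤ 1 / 4) : Q a b c := by
  have ha' : max a 0 ≤ 1 / 4 := max_le ha (by norm_num)
  have hb' : max b 0 ≤ 1 / 4 := max_le hb (by norm_num)
  have hc' : max c 0 ≤ 1 / 4 := max_le hc (by norm_num)
  have a0 : 0 ≤ max a 0 := le_max_right _ _
  have b0 : 0 ≤ max b 0 := le_max_right _ _
  have c0 : 0 ≤ max c 0 := le_max_right _ _
  constructor
  · linarith
  · nlinarith

theorem interior_K : (interior K).Nonempty := by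
  refine ⟨0, ?_⟩
  rw [mem_interior_iff_mem_nhds, Metric.mem_nhds_iff]
  refine ⟨1 / 4, by norm_num, ?_⟩
  intro x hx
  rw [mem_ball_zero_iff] at hx
  have h : ∀ i, |x i| ≤ 1 / 4 := fun i => by
    have := norm_le_pi_norm x i
    rw [Real.norm_eq_abs] at this
    linarith
  have h1 : ∀ i, x i ≤ 1 / 4 := fun i => (abs_le.1 (h i)).2
  have h2 : ∀ i, -x i ≤ 1 / 4 := fun i => by linarith [(abs_le.1 (h i)).1]
  have q : ∀ {a b c : ℝ}, a ≤ 1 / 4 → b ≤ 1 / 4 → c ≤ 1 / 4 → Q3 a b c :=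
    fun ha hb hc => ⟨Q_small ha hb hc, Q_small hb hc ha, Q_small hc ha hb⟩
  exact ⟨q (h1 0) (h1 1) (h1 2), q (h1 0) (h2 1) (h2 2), q (h2 0) (h1 1) (h2 2),
    q (h2 0) (h2 1) (h1 2), q (h1 1) (h1 0) (h2 2), q (h2 1) (h1 0) (h1 2),
    q (h1 1) (h2 0) (h1 2), q (h2 1) (h2 0) (h2 2)⟩

end Helper580.PT
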