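import Mathlib

set_option autoImplicit false

namespace Helper580.PT

open Finset

theorem count {α : Type*} (F : Finset α) (R : Fin 6 → α → Prop)
    (h1 : ∀ m, ∃ t ∈ F, R m t)
    (h2 : ∀ t ∈ F, ∀ m n l, m ≠ n → m ≠ l → n ≠ l → R m t → R n t → R l t → False)
    (h3 : ∀ t ∈ F, ∀ m n, m ≠ n → R m t → R n t → ∃ t' ∈ F, t' ≠ t ∧ R m t') :
    6 ≤ F.card := by
  classical
  set D : α → ℕ := fun t => (univ.filter (fun m => R m t)).card with hD
  have hD2 : ∀ t ∈ F, D t ≤ 2 := by
    intro t ht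
    by_contra hc
    obtain ⟨a, ha, b, hb, c, hc', hab, hac, hbc⟩ := Finset.two_lt_card.1 (not_le.1 hc)
    exact h2 t ht a b c hab hac hbc (mem_filter.1 ha).2 (mem_filter.1 hb).2 (mem_filter.1 hc').2
  set W : Fin 6 → α → ℕ := fun m t => if R m t then (if 2 ≤ D t then 1 else 2) else 0 with hW
  have hcol : ∀ t ∈ F, ∑ m, W m t ≤ 2 := by
    intro t ht
    have e : ∑ m, W m t = D t * (if 2 ≤ D t then 1 else 2) := by
      simp only [hW]
      rw [← Finset.sum_filter, Finset.sum_const, smul_eq_mul]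
    rw [e]
    have := hD2 t ht
    split_ifs with h
    · omega
    · omega
  have hrow : ∀ m, 2 ≤ ∑ t ∈ F, W m t := by
    intro m
    obtain ⟨t0, ht0, hR⟩ := h1 m
    by_cases hd : 2 ≤ D t0
    · obtain ⟨n, hn, hnm⟩ := Finset.exists_mem_ne (s := univ.filter (fun m => R m t0)) hd m
      obtain ⟨t', ht', hne, hR'⟩ := h3 t0 ht0 m n (Ne.symm hnm) hR (mem_filter.1 hn).2
      have hsub : ({t0, t'} : Finset α) ⊆ F := by
        intro x hx
        rcases mem_insert.1 hx with rfl | hx
        · exact ht0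
        · rw [mem_singleton.1 hx]; exact ht'
      have h4 : ∑ t ∈ ({t0, t'} : Finset α), W m t ≤ ∑ t ∈ F, W m t :=
        Finset.sum_le_sum_of_subset hsub
      rw [Finset.sum_pair (Ne.symm hne)] at h4
      have h5 : 1 ≤ W m t0 := by
        simp only [hW, if_pos hR]
        split_ifs <;> norm_num
      have h6 : 1 ≤ W m t' := by
        simp only [hW, if_pos hR']
        split_ifs <;> norm_num
      omega
    · have h4 : W m t0 ≤ ∑ t ∈ F, W m t :=
        Finset.single_le_sum (f := fun t => W m t) (fun i _ => Nat.zero_le _) ht0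
      have h5 : W m t0 = 2 := by
        simp only [hW, if_pos hR, if_neg hd]
      omega
  have hA : ∑ m : Fin 6, 2 ≤ ∑ m : Fin 6, ∑ t ∈ F, W m t := Finset.sum_le_sum fun m _ => hrow m
  have hB : ∑ t ∈ F, ∑ m : Fin 6, W m t ≤ ∑ t ∈ F, 2 := Finset.sum_le_sum fun t ht => hcol t ht
  rw [Finset.sum_comm] at hA
  simp only [Finset.sum_const, card_univ, Fintype.card_fin, smul_eq_mul] at hA hB
  omega

end Helper580.PT
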