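import Pool.Agent.Helper580.PT.Six
import Pool.Agent.Helper580.PT.Count

set_option autoImplicit false

namespace Helper580.PT

open Set

/-- two adjacent vertices, in coordinates -/
theorem real2 {a b c σ σ' : ℝ} (hσ : σ = 1 ∨ σ = -1) (hσ' : σ' = 1 ∨ σ' = -1)
    (h1 : |σ - a| + |0 - b| ≤ 1) (h2 : |0 - a| + |σ' - b| ≤ 1)
    (h3 : (0 - c) ^ 2 ≤ 2 * (1 - |σ - a| - |0 - b|)) :
    ∃ τ : ℝ, 0 ≤ τ ∧ τ ≤ 1 ∧ a = τ * σ ∧ b = τ * σ' ∧ c = 0 := by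
  have i1 := le_abs_self (σ - a)
  have i2 := neg_le_abs (σ - a)
  have i3 := le_abs_self (0 - b)
  have i4 := neg_le_abs (0 - b)
  have i5 := le_abs_self (0 - a)
  have i6 := neg_le_abs (0 - a)
  have i7 := le_abs_self (σ' - b)
  have i8 := neg_le_abs (σ' - b)
  refine ⟨a * σ, ?_⟩
  have hc : c ^ 2 ≤ 0 → c = 0 := fun h => by
    have := le_antisymm h (sq_nonneg c)
    exact pow_eq_zero_iff (two_ne_zero) |>.1 this
  rcases hσ with rfl | rfl <;> rcases hσ' with rfl | rfl <;>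
    refine ⟨by linarith, by linarith, by linarith, by linarith, hc ?_⟩ <;> linarith

/-- two opposite vertices, in coordinates -/
theorem opp2 {a b c : ℝ} (h1 : |1 - a| + |0 - b| ≤ 1) (h2 : |-1 - a| + |0 - b| ≤ 1)
    (h3 : |1 - a| + |0 - c| ≤ 1) (h4 : |-1 - a| + |0 - c| ≤ 1) : a = 0 ∧ b = 0 ∧ c = 0 := by
  have i1 := le_abs_self (1 - a)
  have i2 := neg_le_abs (-1 - a)
  have i3 := le_abs_self (0 - b)
  have i4 := neg_le_abs (0 - b)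
  have i5 := le_abs_self (0 - c)
  have i6 := neg_le_abs (0 - c)
  refine ⟨?_, ?_, ?_⟩ <;> linarith

theorem pair01 {t : Fin 3 → ℝ} {σ σ' : ℝ} (hσ : σ = 1 ∨ σ = -1) (hσ' : σ' = 1 ∨ σ' = -1)
    (hm : (fun i => (![σ, 0, 0] : Fin 3 → ℝ) i - t i) ∈ K) (hn : (fun i => (![0, σ', 0] : Fin 3 → ℝ) i - t i) ∈ K) :
    ∃ τ : ℝ, 0 ≤ τ ∧ τ ≤ 1 ∧ ∀ i, t i = τ * ((![σ, 0, 0] : Fin 3 → ℝ) i + (![0, σ', 0] : Fin 3 → ℝ) i) := by
  have A := facts hm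
  have B := facts hn
  have a1 : |σ - t 0| + |0 - t 1| ≤ 1 := A.1.1
  have a2 : (0 - t 2) ^ 2 ≤ 2 * (1 - |σ - t 0| - |0 - t 1|) := A.1.2
  have b1 : |0 - t 0| + |σ' - t 1| ≤ 1 := B.1.1
  obtain ⟨τ, h1, h2, h3, h4, h5⟩ := real2 hσ hσ' a1 b1 a2
  refine ⟨τ, h1, h2, fun l => ?_⟩
  fin_cases l
  · change t 0 = τ * (σ + 0)
    linarith
  · change t 1 = τ * (0 + σ')
    linarith
  · change t 2 = τ * (0 + 0)
    linarith

theorem pair02 {t : Fin 3 → ℝ} {σ σ' : ℝ} (hσ : σ = 1 ∨ σ = -1) (hσ' : σ' = 1 ∨ σ' = -1)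
    (hm : (fun i => (![σ, 0, 0] : Fin 3 → ℝ) i - t i) ∈ K) (hn : (fun i => (![0, 0, σ'] : Fin 3 → ℝ) i - t i) ∈ K) :
    ∃ τ : ℝ, 0 ≤ τ ∧ τ ≤ 1 ∧ ∀ i, t i = τ * ((![σ, 0, 0] : Fin 3 → ℝ) i + (![0, 0, σ'] : Fin 3 → ℝ) i) := by
  have A := facts hm
  have B := facts hn
  have a1 : |σ - t 0| + |0 - t 2| ≤ 1 := A.2.2.1
  have a2 : (0 - t 1) ^ 2 ≤ 2 * (1 - |σ - t 0| - |0 - t 2|) := A.2.2.2
  have b1 : |0 - t 0| + |σ' - t 2| ≤ 1 := B.2.2.1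
  obtain ⟨τ, h1, h2, h3, h4, h5⟩ := real2 hσ hσ' a1 b1 a2
  refine ⟨τ, h1, h2, fun l => ?_⟩
  fin_cases l
  · change t 0 = τ * (σ + 0)
    linarith
  · change t 1 = τ * (0 + 0)
    linarith
  · change t 2 = τ * (0 + σ')
    linarith

theorem pair12 {t : Fin 3 → ℝ} {σ σ' : ℝ} (hσ : σ = 1 ∨ σ = -1) (hσ' : σ' = 1 ∨ σ' = -1)
    (hm : (fun i => (![0, σ, 0] : Fin 3 → ℝ) i - t i) ∈ K) (hn : (fun i => (![0, 0, σ'] : Fin 3 → ℝ) i - t i) ∈ K) :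
    ∃ τ : ℝ, 0 ≤ τ ∧ τ ≤ 1 ∧ ∀ i, t i = τ * ((![0, σ, 0] : Fin 3 → ℝ) i + (![0, 0, σ'] : Fin 3 → ℝ) i) := by
  have A := facts hm
  have B := facts hn
  have a1 : |σ - t 1| + |0 - t 2| ≤ 1 := A.2.1.1
  have a2 : (0 - t 0) ^ 2 ≤ 2 * (1 - |σ - t 1| - |0 - t 2|) := A.2.1.2
  have b1 : |0 - t 1| + |σ' - t 2| ≤ 1 := B.2.1.1
  obtain ⟨τ, h1, h2, h3, h4, h5⟩ := real2 hσ hσ' a1 b1 a2
  refine ⟨τ, h1, h2, fun l => ?_⟩
  fin_cases l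
  · change t 0 = τ * (0 + 0)
    linarith
  · change t 1 = τ * (σ + 0)
    linarith
  · change t 2 = τ * (0 + σ')
    linarith

theorem pair_all : ∀ m n : Fin 6, m ≠ n → n ≠ m + 3 → ∀ t : Fin 3 → ℝ,
    (fun i => V m i - t i) ∈ K → (fun i => V n i - t i) ∈ K →
    ∃ τ : ℝ, 0 ≤ τ ∧ τ ≤ 1 ∧ ∀ i, t i = τ * (V m i + V n i) := by
  have c01 : ∀ t : Fin 3 → ℝ, (fun i => V 0 i - t i) ∈ K → (fun i => V 1 i - t i) ∈ K →
      ∃ τ : ℝ, 0 ≤ τ ∧ τ ≤ 1 ∧ ∀ i, t i = τ * (V 0 i + V 1 i) := by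
    intro t hm hn
    exact pair01 (σ := 1) (σ' := 1) (Or.inl rfl) (Or.inl rfl) hm hn
  have c02 : ∀ t : Fin 3 → ℝ, (fun i => V 0 i - t i) ∈ K → (fun i => V 2 i - t i) ∈ K →
      ∃ τ : ℝ, 0 ≤ τ ∧ τ ≤ 1 ∧ ∀ i, t i = τ * (V 0 i + V 2 i) := by
    intro t hm hn
    exact pair02 (σ := 1) (σ' := 1) (Or.inl rfl) (Or.inl rfl) hm hn
  have c04 : ∀ t : Fin 3 → ℝ, (fun i => V 0 i - t i) ∈ K → (fun i => V 4 i - t i) ∈ K →
      ∃ τ : ℝ, 0 ≤ τ ∧ τ ≤ 1 ∧ ∀ i, t i = τ * (V 0 i + V 4 i) := by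
    intro t hm hn
    exact pair01 (σ := 1) (σ' := -1) (Or.inl rfl) (Or.inr rfl) hm hn
  have c05 : ∀ t : Fin 3 → ℝ, (fun i => V 0 i - t i) ∈ K → (fun i => V 5 i - t i) ∈ K →
      ∃ τ : ℝ, 0 ≤ τ ∧ τ ≤ 1 ∧ ∀ i, t i = τ * (V 0 i + V 5 i) := by
    intro t hm hn
    exact pair02 (σ := 1) (σ' := -1) (Or.inl rfl) (Or.inr rfl) hm hn
  have c10 : ∀ t : Fin 3 → ℝ, (fun i => V 1 i - t i) ∈ K → (fun i => V 0 i - t i) ∈ K →
      ∃ τ : ℝ, 0 ≤ τ ∧ τ ≤ 1 ∧ ∀ i, t i = τ * (V 1 i + V 0 i) := by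
    intro t hm hn
    obtain ⟨τ, h1, h2, h3⟩ := pair01 (σ := 1) (σ' := 1) (Or.inl rfl) (Or.inl rfl) hn hm
    refine ⟨τ, h1, h2, fun i => ?_⟩
    rw [add_comm]
    exact h3 i
  have c12 : ∀ t : Fin 3 → ℝ, (fun i => V 1 i - t i) ∈ K → (fun i => V 2 i - t i) ∈ K →
      ∃ τ : ℝ, 0 ≤ τ ∧ τ ≤ 1 ∧ ∀ i, t i = τ * (V 1 i + V 2 i) := by
    intro t hm hn
    exact pair12 (σ := 1) (σ' := 1) (Or.inl rfl) (Or.inl rfl) hm hn
  have c13 : ∀ t : Fin 3 → ℝ, (fun i => V 1 i - t i) ∈ K → (fun i => V 3 i - t i) ∈ K →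
      ∃ τ : ℝ, 0 ≤ τ ∧ τ ≤ 1 ∧ ∀ i, t i = τ * (V 1 i + V 3 i) := by
    intro t hm hn
    obtain ⟨τ, h1, h2, h3⟩ := pair01 (σ := -1) (σ' := 1) (Or.inr rfl) (Or.inl rfl) hn hm
    refine ⟨τ, h1, h2, fun i => ?_⟩
    rw [add_comm]
    exact h3 i
  have c15 : ∀ t : Fin 3 → ℝ, (fun i => V 1 i - t i) ∈ K → (fun i => V 5 i - t i) ∈ K →
      ∃ τ : ℝ, 0 ≤ τ ∧ τ ≤ 1 ∧ ∀ i, t i = τ * (V 1 i + V 5 i) := by
    intro t hm hn
    exact pair12 (σ := 1) (σ' := -1) (Or.inl rfl) (Or.inr rfl) hm hn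
  have c20 : ∀ t : Fin 3 → ℝ, (fun i => V 2 i - t i) ∈ K → (fun i => V 0 i - t i) ∈ K →
      ∃ τ : ℝ, 0 ≤ τ ∧ τ ≤ 1 ∧ ∀ i, t i = τ * (V 2 i + V 0 i) := by
    intro t hm hn
    obtain ⟨τ, h1, h2, h3⟩ := pair02 (σ := 1) (σ' := 1) (Or.inl rfl) (Or.inl rfl) hn hm
    refine ⟨τ, h1, h2, fun i => ?_⟩
    rw [add_comm]
    exact h3 i
  have c21 : ∀ t : Fin 3 → ℝ, (fun i => V 2 i - t i) ∈ K → (fun i => V 1 i - t i) ∈ K →
      ∃ τ : ℝ, 0 ≤ τ ∧ τ ≤ 1 ∧ ∀ i, t i = τ * (V 2 i + V 1 i) := by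
    intro t hm hn
    obtain ⟨τ, h1, h2, h3⟩ := pair12 (σ := 1) (σ' := 1) (Or.inl rfl) (Or.inl rfl) hn hm
    refine ⟨τ, h1, h2, fun i => ?_⟩
    rw [add_comm]
    exact h3 i
  have c23 : ∀ t : Fin 3 → ℝ, (fun i => V 2 i - t i) ∈ K → (fun i => V 3 i - t i) ∈ K →
      ∃ τ : ℝ, 0 ≤ τ ∧ τ ≤ 1 ∧ ∀ i, t i = τ * (V 2 i + V 3 i) := by
    intro t hm hn
    obtain ⟨τ, h1, h2, h3⟩ := pair02 (σ := -1) (σ' := 1) (Or.inr rfl) (Or.inl rfl) hn hm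
    refine ⟨τ, h1, h2, fun i => ?_⟩
    rw [add_comm]
    exact h3 i
  have c24 : ∀ t : Fin 3 → ℝ, (fun i => V 2 i - t i) ∈ K → (fun i => V 4 i - t i) ∈ K →
      ∃ τ : ℝ, 0 ≤ τ ∧ τ ≤ 1 ∧ ∀ i, t i = τ * (V 2 i + V 4 i) := by
    intro t hm hn
    obtain ⟨τ, h1, h2, h3⟩ := pair12 (σ := -1) (σ' := 1) (Or.inr rfl) (Or.inl rfl) hn hm
    refine ⟨τ, h1, h2, fun i => ?_⟩
    rw [add_comm]
    exact h3 i
  have c31 : ∀ t : Fin 3 → ℝ, (fun i => V 3 i - t i) ∈ K → (fun i => V 1 i - t i) ∈ K →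
      ∃ τ : ℝ, 0 ≤ τ ∧ τ ≤ 1 ∧ ∀ i, t i = τ * (V 3 i + V 1 i) := by
    intro t hm hn
    exact pair01 (σ := -1) (σ' := 1) (Or.inr rfl) (Or.inl rfl) hm hn
  have c32 : ∀ t : Fin 3 → ℝ, (fun i => V 3 i - t i) ∈ K → (fun i => V 2 i - t i) ∈ K →
      ∃ τ : ℝ, 0 ≤ τ ∧ τ ≤ 1 ∧ ∀ i, t i = τ * (V 3 i + V 2 i) := by
    intro t hm hn
    exact pair02 (σ := -1) (σ' := 1) (Or.inr rfl) (Or.inl rfl) hm hn
  have c34 : ∀ t : Fin 3 → ℝ, (fun i => V 3 i - t i) ∈ K → (fun i => V 4 i - t i) ∈ K →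
      ∃ τ : ℝ, 0 ≤ τ ∧ τ ≤ 1 ∧ ∀ i, t i = τ * (V 3 i + V 4 i) := by
    intro t hm hn
    exact pair01 (σ := -1) (σ' := -1) (Or.inr rfl) (Or.inr rfl) hm hn
  have c35 : ∀ t : Fin 3 → ℝ, (fun i => V 3 i - t i) ∈ K → (fun i => V 5 i - t i) ∈ K →
      ∃ τ : ℝ, 0 ≤ τ ∧ τ ≤ 1 ∧ ∀ i, t i = τ * (V 3 i + V 5 i) := by
    intro t hm hn
    exact pair02 (σ := -1) (σ' := -1) (Or.inr rfl) (Or.inr rfl) hm hn
  have c40 : ∀ t : Fin 3 → ℝ, (fun i => V 4 i - t i) ∈ K → (fun i => V 0 i - t i) ∈ K →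
      ∃ τ : ℝ, 0 ≤ τ ∧ τ ≤ 1 ∧ ∀ i, t i = τ * (V 4 i + V 0 i) := by
    intro t hm hn
    obtain ⟨τ, h1, h2, h3⟩ := pair01 (σ := 1) (σ' := -1) (Or.inl rfl) (Or.inr rfl) hn hm
    refine ⟨τ, h1, h2, fun i => ?_⟩
    rw [add_comm]
    exact h3 i
  have c42 : ∀ t : Fin 3 → ℝ, (fun i => V 4 i - t i) ∈ K → (fun i => V 2 i - t i) ∈ K →
      ∃ τ : ℝ, 0 ≤ τ ∧ τ ≤ 1 ∧ ∀ i, t i = τ * (V 4 i + V 2 i) := by
    intro t hm hn
    exact pair12 (σ := -1) (σ' := 1) (Or.inr rfl) (Or.inl rfl) hm hn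
  have c43 : ∀ t : Fin 3 → ℝ, (fun i => V 4 i - t i) ∈ K → (fun i => V 3 i - t i) ∈ K →
      ∃ τ : ℝ, 0 ≤ τ ∧ τ ≤ 1 ∧ ∀ i, t i = τ * (V 4 i + V 3 i) := by
    intro t hm hn
    obtain ⟨τ, h1, h2, h3⟩ := pair01 (σ := -1) (σ' := -1) (Or.inr rfl) (Or.inr rfl) hn hm
    refine ⟨τ, h1, h2, fun i => ?_⟩
    rw [add_comm]
    exact h3 i
  have c45 : ∀ t : Fin 3 → ℝ, (fun i => V 4 i - t i) ∈ K → (fun i => V 5 i - t i) ∈ K →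
      ∃ τ : ℝ, 0 ≤ τ ∧ τ ≤ 1 ∧ ∀ i, t i = τ * (V 4 i + V 5 i) := by
    intro t hm hn
    exact pair12 (σ := -1) (σ' := -1) (Or.inr rfl) (Or.inr rfl) hm hn
  have c50 : ∀ t : Fin 3 → ℝ, (fun i => V 5 i - t i) ∈ K → (fun i => V 0 i - t i) ∈ K →
      ∃ τ : ℝ, 0 ≤ τ ∧ τ ≤ 1 ∧ ∀ i, t i = τ * (V 5 i + V 0 i) := by
    intro t hm hn
    obtain ⟨τ, h1, h2, h3⟩ := pair02 (σ := 1) (σ' := -1) (Or.inl rfl) (Or.inr rfl) hn hm
    refine ⟨τ, h1, h2, fun i => ?_⟩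
    rw [add_comm]
    exact h3 i
  have c51 : ∀ t : Fin 3 → ℝ, (fun i => V 5 i - t i) ∈ K → (fun i => V 1 i - t i) ∈ K →
      ∃ τ : ℝ, 0 ≤ τ ∧ τ ≤ 1 ∧ ∀ i, t i = τ * (V 5 i + V 1 i) := by
    intro t hm hn
    obtain ⟨τ, h1, h2, h3⟩ := pair12 (σ := 1) (σ' := -1) (Or.inl rfl) (Or.inr rfl) hn hm
    refine ⟨τ, h1, h2, fun i => ?_⟩
    rw [add_comm]
    exact h3 i
  have c53 : ∀ t : Fin 3 → ℝ, (fun i => V 5 i - t i) ∈ K → (fun i => V 3 i - t i) ∈ K →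
      ∃ τ : ℝ, 0 ≤ τ ∧ τ ≤ 1 ∧ ∀ i, t i = τ * (V 5 i + V 3 i) := by
    intro t hm hn
    obtain ⟨τ, h1, h2, h3⟩ := pair02 (σ := -1) (σ' := -1) (Or.inr rfl) (Or.inr rfl) hn hm
    refine ⟨τ, h1, h2, fun i => ?_⟩
    rw [add_comm]
    exact h3 i
  have c54 : ∀ t : Fin 3 → ℝ, (fun i => V 5 i - t i) ∈ K → (fun i => V 4 i - t i) ∈ K →
      ∃ τ : ℝ, 0 ≤ τ ∧ τ ≤ 1 ∧ ∀ i, t i = τ * (V 5 i + V 4 i) := by
    intro t hm hn
    obtain ⟨τ, h1, h2, h3⟩ := pair12 (σ := -1) (σ' := -1) (Or.inr rfl) (Or.inr rfl) hn hm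
    refine ⟨τ, h1, h2, fun i => ?_⟩
    rw [add_comm]
    exact h3 i
  intro m n h1 h2
  fin_cases m <;> fin_cases n <;> first | exact absurd rfl h1 | exact absurd rfl h2 | assumption

theorem opp_all : ∀ m : Fin 6, ∀ t : Fin 3 → ℝ,
    (fun i => V m i - t i) ∈ K → (fun i => V (m + 3) i - t i) ∈ K → t = 0 := by
  have c0 : ∀ t : Fin 3 → ℝ, (fun i => V 0 i - t i) ∈ K → (fun i => V 3 i - t i) ∈ K → t = 0 := by
    intro t hm hn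
    have A := facts hm
    have B := facts hn
    have a1 : |1 - t 0| + |0 - t 1| ≤ 1 := A.1.1
    have b1 : |-1 - t 0| + |0 - t 1| ≤ 1 := B.1.1
    have a2 : |1 - t 0| + |0 - t 2| ≤ 1 := A.2.2.1
    have b2 : |-1 - t 0| + |0 - t 2| ≤ 1 := B.2.2.1
    obtain ⟨e0, e1, e2⟩ := opp2 a1 b1 a2 b2
    funext l
    fin_cases l
    · change t 0 = 0
      assumption
    · change t 1 = 0
      assumption
    · change t 2 = 0
      assumption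
  have c1 : ∀ t : Fin 3 → ℝ, (fun i => V 1 i - t i) ∈ K → (fun i => V 4 i - t i) ∈ K → t = 0 := by
    intro t hm hn
    have A := facts hm
    have B := facts hn
    have a1' : |0 - t 0| + |1 - t 1| ≤ 1 := A.1.1
    have a1 : |1 - t 1| + |0 - t 0| ≤ 1 := by linarith
    have b1' : |0 - t 0| + |-1 - t 1| ≤ 1 := B.1.1
    have b1 : |-1 - t 1| + |0 - t 0| ≤ 1 := by linarith
    have a2 : |1 - t 1| + |0 - t 2| ≤ 1 := A.2.1.1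
    have b2 : |-1 - t 1| + |0 - t 2| ≤ 1 := B.2.1.1
    obtain ⟨e0, e1, e2⟩ := opp2 a1 b1 a2 b2
    funext l
    fin_cases l
    · change t 0 = 0
      assumption
    · change t 1 = 0
      assumption
    · change t 2 = 0
      assumption
  have c2 : ∀ t : Fin 3 → ℝ, (fun i => V 2 i - t i) ∈ K → (fun i => V 5 i - t i) ∈ K → t = 0 := by
    intro t hm hn
    have A := facts hm
    have B := facts hn
    have a1' : |0 - t 0| + |1 - t 2| ≤ 1 := A.2.2.1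
    have a1 : |1 - t 2| + |0 - t 0| ≤ 1 := by linarith
    have b1' : |0 - t 0| + |-1 - t 2| ≤ 1 := B.2.2.1
    have b1 : |-1 - t 2| + |0 - t 0| ≤ 1 := by linarith
    have a2' : |0 - t 1| + |1 - t 2| ≤ 1 := A.2.1.1
    have a2 : |1 - t 2| + |0 - t 1| ≤ 1 := by linarith
    have b2' : |0 - t 1| + |-1 - t 2| ≤ 1 := B.2.1.1
    have b2 : |-1 - t 2| + |0 - t 1| ≤ 1 := by linarith
    obtain ⟨e0, e1, e2⟩ := opp2 a1 b1 a2 b2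
    funext l
    fin_cases l
    · change t 0 = 0
      assumption
    · change t 1 = 0
      assumption
    · change t 2 = 0
      assumption
  intro m
  fin_cases m
  · exact c0
  · exact c1
  · exact c2
  · exact fun t h1 h2 => c0 t h2 h1
  · exact fun t h1 h2 => c1 t h2 h1
  · exact fun t h1 h2 => c2 t h2 h1

/-- if a proper translate covers two vertices -/
theorem pair_all' {m n : Fin 6} (hmn : m ≠ n) {t : Fin 3 → ℝ} (ht : t ≠ 0)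
    (hm : (fun i => V m i - t i) ∈ K) (hn : (fun i => V n i - t i) ∈ K) :
    n ≠ m + 3 ∧ ∃ τ : ℝ, 0 < τ ∧ τ ≤ 1 ∧ ∀ i, t i = τ * (V m i + V n i) := by
  have h3 : n ≠ m + 3 := by
    rintro rfl
    exact ht (opp_all m t hm hn)
  refine ⟨h3, ?_⟩
  obtain ⟨τ, h1, h2, h4⟩ := pair_all m n hmn h3 t hm hn
  refine ⟨τ, lt_of_le_of_ne h1 ?_, h2, h4⟩
  rintro rfl
  apply ht
  funext i
  rw [h4 i]
  simp

theorem dot_adj : ∀ m n : Fin 6, m ≠ n → n ≠ m + 3 →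
    V m 0 * V n 0 + V m 1 * V n 1 + V m 2 * V n 2 = 0 := by
  have w : ∀ a b c : ℝ, (![a, b, c] : Fin 3 → ℝ) 2 = c := fun _ _ _ => rfl
  intro m n h1 h2
  fin_cases m <;> fin_cases n <;>
    first | exact absurd rfl h1 | exact absurd rfl h2 | norm_num [V, w]

theorem dot_self : ∀ m : Fin 6, V m 0 * V m 0 + V m 1 * V m 1 + V m 2 * V m 2 = 1 := by
  have w : ∀ a b c : ℝ, (![a, b, c] : Fin 3 → ℝ) 2 = c := fun _ _ _ => rfl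
  intro m
  fin_cases m <;> norm_num [V, w]

/-- a proper translate covers at most two vertices -/
theorem no_three {m n l : Fin 6} (hmn : m ≠ n) (hml : m ≠ l) (hnl : n ≠ l) {t : Fin 3 → ℝ}
    (ht : t ≠ 0) (hm : (fun i => V m i - t i) ∈ K) (hn : (fun i => V n i - t i) ∈ K)
    (hl : (fun i => V l i - t i) ∈ K) : False := by
  obtain ⟨-, τ, t0, t1, t2⟩ := pair_all' hmn ht hm hn
  obtain ⟨a1, τ', s0, s1, s2⟩ := pair_all' hml ht hm hl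
  obtain ⟨a2, -⟩ := pair_all' hnl ht hn hl
  have d1 := dot_adj m l hml a1
  have d2 := dot_adj n l hnl a2
  have d3 := dot_self l
  have e1 : t 0 * V l 0 + t 1 * V l 1 + t 2 * V l 2 = 0 := by
    rw [t2 0, t2 1, t2 2]
    linear_combination τ * d1 + τ * d2
  have e2 : t 0 * V l 0 + t 1 * V l 1 + t 2 * V l 2 = τ' := by
    rw [s2 0, s2 1, s2 2]
    linear_combination τ' * d1 + τ' * d3
  linarith

/-- a vertex met by a translate through two vertices is met by another translate -/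
theorem another {F : Finset (Fin 3 → ℝ)} (hF : ∀ t ∈ F, t ≠ 0)
    (hc : K ⊆ ⋃ t ∈ F, (fun x => x + t) '' K) {t : Fin 3 → ℝ} (ht : t ∈ F) {m n : Fin 6}
    (hmn : m ≠ n) (hm : (fun i => V m i - t i) ∈ K) (hn : (fun i => V n i - t i) ∈ K) :
    ∃ t' ∈ F, t' ≠ t ∧ (fun i => V m i - t' i) ∈ K := by
  classical
  by_contra hcon
  push Not at hcon
  obtain ⟨hadj, τ, h1, h2, h3⟩ := pair_all' hmn (hF t ht) hm hn
  have hbad := bad_all m n hmn hadj τ h1 h2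
  have hev : ∀ᶠ x in nhds (V m), ∀ t' ∈ F.erase t, x - t' ∉ K := by
    rw [Filter.eventually_all_finset]
    intro t' ht'
    have hne := hcon t' (Finset.mem_of_mem_erase ht') (Finset.ne_of_mem_erase ht')
    have hopen : IsOpen {x : Fin 3 → ℝ | x - t' ∉ K} := by
      have : IsClosed {x : Fin 3 → ℝ | x - t' ∈ K} :=
        closed_K.preimage (continuous_id.sub continuous_const)
      exact this.isOpen_compl
    exact hopen.mem_nhds hne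
  obtain ⟨ε, hε, hball⟩ := Metric.eventually_nhds_iff.1 hev
  obtain ⟨x, hx, hd, hnot⟩ := hbad ε hε
  have hdist : dist x (V m) < ε := by
    rw [dist_pi_lt_iff hε]
    intro i
    rw [Real.dist_eq]
    exact hd i
  have hb := hball hdist
  obtain ⟨t', ht', hxt⟩ := mem_iUnion₂.1 (hc hx)
  obtain ⟨y, hy, hyx⟩ := hxt
  have hyt : x - t' ∈ K := by
    have : x - t' = y := by rw [← hyx]; simp
    rw [this]; exact hy
  by_cases htt : t' = t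
  · subst htt
    apply hnot
    convert hyt using 1
    funext i
    rw [← h3 i]
    rfl
  · exact hb t' (Finset.mem_erase.2 ⟨htt, ht'⟩) hyt

theorem six (F : Finset (Fin 3 → ℝ)) (hF : ∀ t ∈ F, t ≠ 0)
    (hc : K ⊆ ⋃ t ∈ F, (fun x => x + t) '' K) : 6 ≤ F.card := by
  refine count F (fun m t => (fun i => V m i - t i) ∈ K) ?_ ?_ ?_
  · intro m
    obtain ⟨t', ht', hxt⟩ := mem_iUnion₂.1 (hc (V_mem m))
    obtain ⟨y, hy, hyx⟩ := hxt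
    refine ⟨t', ht', ?_⟩
    convert hy using 1
    funext i
    rw [← hyx]
    simp
  · intro t ht m n l hmn hml hnl hm hn hl
    exact no_three hmn hml hnl (hF t ht) hm hn hl
  · intro t ht m n hmn hm hn
    exact another hF hc ht hmn hm hn

end Helper580.PT
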