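import Mathlib

set_option autoImplicit false

/-!
No six points of `ℝ³` are pairwise strictly antipodal (Grünbaum).
-/

namespace Helper580.PT

open Finset

/-- the basic inequality for an affine dependence `ν` and a functional with values `F`,
strictly minimal at `i` and strictly maximal at `j` -/
theorem dep_ineq {ν F : Fin 6 → ℝ} {i j : Fin 6} (hij : i ≠ j) (h0 : ∑ l, ν l = 0)
    (h1 : ∑ l, ν l * F l = 0) (hi : ∀ l, l ≠ i → F i < F l) (hj : ∀ l, l ≠ j → F l < F j)
    (hνi : 0 < ν i) (hνj : ν j < 0) : ν i - ν j < ∑ l, max (ν l) 0 := by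
  classical
  have hab : F i < F j := hi j (Ne.symm hij)
  have h2 : ∑ l, ν l * (F l - F i) = 0 := by
    have : ∑ l, ν l * (F l - F i) = ∑ l, ν l * F l - (∑ l, ν l) * F i := by
      rw [Finset.sum_mul, ← Finset.sum_sub_distrib]
      exact Finset.sum_congr rfl fun l _ => by ring
    rw [this, h0, h1]; ring
  have hex : ∃ l, l ≠ i ∧ l ≠ j ∧ ν l ≠ 0 := by
    by_contra hcon
    push Not at hcon
    rw [Finset.sum_eq_single j] at h2
    · rcases mul_eq_zero.1 h2 with h | h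
      · exact absurd h hνj.ne
      · linarith
    · intro l _ hl
      by_cases hli : l = i
      · rw [hli]; ring
      · rw [hcon l hli hl]; ring
    · intro h; exact absurd (mem_univ _) h
  obtain ⟨l, hli, hlj, hl⟩ := hex
  set h : Fin 6 → ℝ := fun l => max (ν l) 0 * (F j - F i) - ν l * (F l - F i) with hh
  have hnn : ∀ l, 0 ≤ h l := by
    intro l
    simp only [hh]
    have e1 : F l ≤ F j := by
      by_cases h' : l = j
      · rw [h']
      · exact (hj l h').le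
    have e2 : F i ≤ F l := by
      by_cases h' : l = i
      · rw [h']
      · exact (hi l h').le
    rcases le_total (ν l) 0 with h' | h'
    · rw [max_eq_right h']
      nlinarith
    · rw [max_eq_left h']
      nlinarith
  have hpos : 0 < h l := by
    simp only [hh]
    have e1 := hj l hlj
    have e2 := hi l hli
    rcases lt_or_gt_of_ne hl with h' | h'
    · rw [max_eq_right h'.le]
      nlinarith
    · rw [max_eq_left h'.le]
      nlinarith
  have hsum : ∑ l, h l = (∑ l, max (ν l) 0) * (F j - F i) := by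
    simp only [hh]
    rw [Finset.sum_sub_distrib, h2, sub_zero, Finset.sum_mul]
  have hsub : h i + (h j + h l) ≤ ∑ l, h l := by
    have e : ∑ k ∈ ({i, j, l} : Finset (Fin 6)), h k = h i + (h j + h l) := by
      rw [Finset.sum_insert, Finset.sum_insert, Finset.sum_singleton]
      · simp [Ne.symm hlj]
      · simp [hij, Ne.symm hli]
    rw [← e]
    exact Finset.sum_le_sum_of_subset_of_nonneg (subset_univ _) fun k _ _ => hnn k
  have ei : h i = ν i * (F j - F i) := by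
    simp only [hh]
    rw [max_eq_left hνi.le]; ring
  have ej : h j = - ν j * (F j - F i) := by
    simp only [hh]
    rw [max_eq_right hνj.le]; ring
  have : (ν i - ν j) * (F j - F i) < (∑ l, max (ν l) 0) * (F j - F i) := by
    rw [← hsum]; nlinarith
  exact lt_of_mul_lt_mul_right this (by linarith)

theorem tb {A B1 B2 m n t : ℝ} (hA : 0 < A) (h1 : B1 ≤ A) (h2 : B2 ≤ A) (p1 : 0 < B1)
    (p2 : 0 < B2) (hm : m < 0) (hm' : -m < B2) (hn : n < 0) (hn' : -n < B1)
    (e : A * t = B1 * m - B2 * n) : t < B1 ∧ t < B2 ∧ -B1 < t ∧ -B2 < t := by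
  have e1 : A * t < B1 * B2 := by nlinarith
  have e2 : -(A * t) < B1 * B2 := by nlinarith
  have e3 : B1 * B2 ≤ A * B1 := by nlinarith
  have e4 : B1 * B2 ≤ A * B2 := by nlinarith
  refine ⟨?_, ?_, ?_, ?_⟩
  · exact lt_of_mul_lt_mul_left (a := A) (by linarith) hA.le
  · exact lt_of_mul_lt_mul_left (a := A) (by linarith) hA.le
  · exact lt_of_mul_lt_mul_left (a := A) (by linarith) hA.le
  · exact lt_of_mul_lt_mul_left (a := A) (by linarith) hA.le

theorem caseA {M : Fin 6 → Fin 6 → ℝ} (anti : ∀ k l, M k l = - M l k)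
    (rs : ∀ k, ∑ l, M k l = 0)
    (pl : ∀ x y k l, M x y * M k l = M k y * M x l - M x k * M l y)
    (hF : ∀ k i j, i ≠ j → 0 < M k i → M k j < 0 → M k i - M k j < ∑ l, max (M k l) 0)
    {x y z u v w : Fin 6}
    (hsum : ∀ f : Fin 6 → ℝ, ∑ l, f l = f x + f y + f z + f u + f v + f w)
    (hyx : y ≠ x) (hA : 0 < M x y) (hmax : ∀ k l, M k l ≤ M x y)
    (xz : 0 < M x z) (xu : M x u < 0) (xv : M x v < 0) (xw : M x w < 0)
    (xu' : -M x u < M x z) (xv' : -M x v < M x z) (xw' : -M x w < M x z)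
    (zy : 0 < M z y) (uy : M u y < 0) (vy : M v y < 0) (wy : M w y < 0)
    (uy' : -M u y < M z y) (vy' : -M v y < M z y) (wy' : -M w y < M z y) : False := by
  have hzx : M z x = - M x z := anti z x
  have hzz : M z z = 0 := by linarith [anti z z]
  have F := hF z y x hyx zy (by linarith)
  rw [hsum] at F
  have R := rs z
  rw [hsum] at R
  obtain ⟨a1, a2, a3, a4⟩ := tb hA (hmax z y) (hmax x z) zy xz xu xu' uy uy' (pl x y z u)
  obtain ⟨b1, b2, b3, b4⟩ := tb hA (hmax z y) (hmax x z) zy xz xv xv' vy vy' (pl x y z v)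
  obtain ⟨c1, c2, c3, c4⟩ := tb hA (hmax z y) (hmax x z) zy xz xw xw' wy wy' (pl x y z w)
  rw [max_eq_right (by linarith : M z x ≤ 0), max_eq_left zy.le, hzz, max_self] at F
  rw [hzz] at R
  rcases le_total (M z u) 0 with h1 | h1 <;> rcases le_total (M z v) 0 with h2 | h2 <;>
    rcases le_total (M z w) 0 with h3 | h3 <;>
    simp only [max_eq_left, max_eq_right, h1, h2, h3] at F <;> linarith

theorem caseB' {M : Fin 6 → Fin 6 → ℝ} (anti : ∀ k l, M k l = - M l k)
    (rs : ∀ k, ∑ l, M k l = 0)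
    (pl : ∀ x y k l, M x y * M k l = M k y * M x l - M x k * M l y)
    (hF : ∀ k i j, i ≠ j → 0 < M k i → M k j < 0 → M k i - M k j < ∑ l, max (M k l) 0)
    {x y z1 z2 u v : Fin 6}
    (hsum : ∀ f : Fin 6 → ℝ, ∑ l, f l = f x + f y + f z1 + f z2 + f u + f v)
    (hyv : y ≠ v) (hz : z2 ≠ z1) (hA : 0 < M x y)
    (xz1 : 0 < M x z1) (xz2 : M x z2 < 0) (xu : M x u < 0) (xv : M x v < 0)
    (xz2' : -M x z2 < M x z1)
    (z2y : 0 < M z2 y) (z1y : M z1 y < 0) (uy : M u y < 0) (vy : M v y < 0)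
    (z1y' : -M z1 y < M z2 y) (uy' : -M u y < M z2 y) (huv : 0 ≤ M u v) : False := by
  have d1 : M z2 x = - M x z2 := anti z2 x
  have d2 : M z2 z2 = 0 := by linarith [anti z2 z2]
  have e1 := pl x y z2 z1
  have e2 := pl x y z2 u
  have e3 := pl x y z2 v
  have f1 : 0 < M z2 z1 := by
    have : 0 < M x y * M z2 z1 := by rw [e1]; nlinarith
    exact (pos_iff_pos_of_mul_pos this).1 hA
  have f2 : M z2 u < 0 := by
    have : M x y * M z2 u < 0 := by
      rw [e2]
      nlinarith [mul_pos_of_neg_of_neg xz2 uy, mul_neg_of_pos_of_neg z2y xu]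
    exact neg_of_mul_neg_right this hA.le
  have f3 : M z2 v < 0 := by
    have : M x y * M z2 v < 0 := by
      rw [e3]
      nlinarith [mul_pos_of_neg_of_neg xz2 vy, mul_neg_of_pos_of_neg z2y xv]
    exact neg_of_mul_neg_right this hA.le
  have F := hF z2 y v hyv z2y f3
  have R := rs z2
  rw [hsum] at F R
  rw [max_eq_left (by linarith : 0 ≤ M z2 x), max_eq_left z2y.le, max_eq_left f1.le, d2, max_self,
    max_eq_right f2.le, max_eq_right f3.le] at F
  rw [d2] at R
  have g1 : M z2 y < - M z2 u := by linarith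
  have d3 : M u z2 = - M z2 u := anti u z2
  have d4 : M u x = - M x u := anti u x
  have d5 : M u u = 0 := by linarith [anti u u]
  have e4 := pl x y u z1
  have f4 : M u z1 < 0 := by
    have : M x y * M u z1 < 0 := by
      rw [e4]
      nlinarith [mul_pos_of_neg_of_neg xu z1y, mul_neg_of_neg_of_pos uy xz1]
    exact neg_of_mul_neg_right this hA.le
  have F' := hF u z2 z1 hz (by linarith) f4
  have R' := rs u
  rw [hsum] at F' R'
  rw [max_eq_left (by linarith : 0 ≤ M u x), max_eq_right uy.le, max_eq_right f4.le,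
    max_eq_left (by linarith : 0 ≤ M u z2), d5, max_self, max_eq_left huv] at F'
  rw [d5] at R'
  linarith

theorem caseB {M : Fin 6 → Fin 6 → ℝ} (anti : ∀ k l, M k l = - M l k)
    (rs : ∀ k, ∑ l, M k l = 0)
    (pl : ∀ x y k l, M x y * M k l = M k y * M x l - M x k * M l y)
    (hF : ∀ k i j, i ≠ j → 0 < M k i → M k j < 0 → M k i - M k j < ∑ l, max (M k l) 0)
    {x y z1 z2 u v : Fin 6}
    (hsum : ∀ f : Fin 6 → ℝ, ∑ l, f l = f x + f y + f z1 + f z2 + f u + f v)
    (hyu : y ≠ u) (hyv : y ≠ v) (hz : z2 ≠ z1) (hA : 0 < M x y)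
    (xz1 : 0 < M x z1) (xz2 : M x z2 < 0) (xu : M x u < 0) (xv : M x v < 0)
    (xz2' : -M x z2 < M x z1)
    (z2y : 0 < M z2 y) (z1y : M z1 y < 0) (uy : M u y < 0) (vy : M v y < 0)
    (z1y' : -M z1 y < M z2 y) (uy' : -M u y < M z2 y) (vy' : -M v y < M z2 y) : False := by
  rcases le_total 0 (M u v) with h | h
  · exact caseB' anti rs pl hF hsum hyv hz hA xz1 xz2 xu xv xz2' z2y z1y uy vy z1y' uy' h
  · have hsum' : ∀ f : Fin 6 → ℝ, ∑ l, f l = f x + f y + f z1 + f z2 + f v + f u := by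
      intro f; rw [hsum f]; ring
    exact caseB' anti rs pl hF hsum' hyu hz hA xz1 xz2 xv xu xz2' z2y z1y vy uy z1y' vy'
      (by linarith [anti u v])

theorem Lone {A q1 q2 q3 q4 : ℝ} (hA : 0 < A) (hs : A + q1 + q2 + q3 + q4 = 0)
    (b1 : -q1 ≤ A) (b2 : -q2 ≤ A) (b3 : -q3 ≤ A) (b4 : -q4 ≤ A)
    (F1 : q1 < 0 → A - q1 < A + (max q1 0 + max q2 0 + max q3 0 + max q4 0))
    (F2 : q2 < 0 → A - q2 < A + (max q1 0 + max q2 0 + max q3 0 + max q4 0))
    (F3 : q3 < 0 → A - q3 < A + (max q1 0 + max q2 0 + max q3 0 + max q4 0))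
    (F4 : q4 < 0 → A - q4 < A + (max q1 0 + max q2 0 + max q3 0 + max q4 0)) :
    (0 < q1 ∧ q2 < 0 ∧ q3 < 0 ∧ q4 < 0 ∧ -q2 < q1 ∧ -q3 < q1 ∧ -q4 < q1) ∨
    (0 < q2 ∧ q1 < 0 ∧ q3 < 0 ∧ q4 < 0 ∧ -q1 < q2 ∧ -q3 < q2 ∧ -q4 < q2) ∨
    (0 < q3 ∧ q1 < 0 ∧ q2 < 0 ∧ q4 < 0 ∧ -q1 < q3 ∧ -q2 < q3 ∧ -q4 < q3) ∨
    (0 < q4 ∧ q1 < 0 ∧ q2 < 0 ∧ q3 < 0 ∧ -q1 < q4 ∧ -q2 < q4 ∧ -q3 < q4) := by
  have G1 : (q1 < 0 ∧ max q1 0 = 0 ∧ A - q1 < A + (max q1 0 + max q2 0 + max q3 0 + max q4 0)) ∨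
      (0 ≤ q1 ∧ max q1 0 = q1) := by
    rcases lt_or_ge q1 0 with h | h
    · exact Or.inl ⟨h, max_eq_right h.le, F1 h⟩
    · exact Or.inr ⟨h, max_eq_left h⟩
  have G2 : (q2 < 0 ∧ max q2 0 = 0 ∧ A - q2 < A + (max q1 0 + max q2 0 + max q3 0 + max q4 0)) ∨
      (0 ≤ q2 ∧ max q2 0 = q2) := by
    rcases lt_or_ge q2 0 with h | h
    · exact Or.inl ⟨h, max_eq_right h.le, F2 h⟩
    · exact Or.inr ⟨h, max_eq_left h⟩
  have G3 : (q3 < 0 ∧ max q3 0 = 0 ∧ A - q3 < A + (max q1 0 + max q2 0 + max q3 0 + max q4 0)) ∨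
      (0 ≤ q3 ∧ max q3 0 = q3) := by
    rcases lt_or_ge q3 0 with h | h
    · exact Or.inl ⟨h, max_eq_right h.le, F3 h⟩
    · exact Or.inr ⟨h, max_eq_left h⟩
  have G4 : (q4 < 0 ∧ max q4 0 = 0 ∧ A - q4 < A + (max q1 0 + max q2 0 + max q3 0 + max q4 0)) ∨
      (0 ≤ q4 ∧ max q4 0 = q4) := by
    rcases lt_or_ge q4 0 with h | h
    · exact Or.inl ⟨h, max_eq_right h.le, F4 h⟩
    · exact Or.inr ⟨h, max_eq_left h⟩
  clear F1 F2 F3 F4
  rcases G1 with ⟨h1, m1, g1⟩ | ⟨h1, m1⟩ <;> rcases G2 with ⟨h2, m2, g2⟩ | ⟨h2, m2⟩ <;>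
    rcases G3 with ⟨h3, m3, g3⟩ | ⟨h3, m3⟩ <;> rcases G4 with ⟨h4, m4, g4⟩ | ⟨h4, m4⟩ <;>
    first
      | (exfalso; linarith)
      | exact Or.inl ⟨by linarith, by linarith, by linarith, by linarith, by linarith,
          by linarith, by linarith⟩
      | exact Or.inr (Or.inl ⟨by linarith, by linarith, by linarith, by linarith, by linarith,
          by linarith, by linarith⟩)
      | exact Or.inr (Or.inr (Or.inl ⟨by linarith, by linarith, by linarith, by linarith,
          by linarith, by linarith, by linarith⟩))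
      | exact Or.inr (Or.inr (Or.inr ⟨by linarith, by linarith, by linarith, by linarith,
          by linarith, by linarith, by linarith⟩))

theorem core {M : Fin 6 → Fin 6 → ℝ} (anti : ∀ k l, M k l = - M l k)
    (rs : ∀ k, ∑ l, M k l = 0)
    (pl : ∀ x y k l, M x y * M k l = M k y * M x l - M x k * M l y)
    (hF : ∀ k i j, i ≠ j → 0 < M k i → M k j < 0 → M k i - M k j < ∑ l, max (M k l) 0)
    (hG : ∀ k i j, i ≠ j → 0 < M i k → M j k < 0 → M i k - M j k < ∑ l, max (M l k) 0)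
    (hA : 0 < M 0 1) (hmax : ∀ k l, M k l ≤ M 0 1) : False := by
  have z00 : M 0 0 = 0 := by linarith [anti 0 0]
  have z11 : M 1 1 = 0 := by linarith [anti 1 1]
  have m01 : max (M 0 1) 0 = M 0 1 := max_eq_left hA.le
  have R := rs 0
  rw [Fin.sum_univ_six, z00] at R
  have C : ∑ l, M l 1 = 0 := by
    have : ∑ l, M l 1 = - ∑ l, M 1 l := by
      rw [← Finset.sum_neg_distrib]
      exact Finset.sum_congr rfl fun l _ => anti l 1
    rw [this, rs 1, neg_zero]
  rw [Fin.sum_univ_six, z11] at C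
  have r2 : M 0 2 < 0 → M 0 1 - M 0 2 < M 0 1 + (max (M 0 2) 0 + max (M 0 3) 0 + max (M 0 4) 0 +
      max (M 0 5) 0) := by
    intro h
    have := hF 0 1 2 (by decide) hA h
    rw [Fin.sum_univ_six, z00, max_self, m01] at this
    linarith
  have c2 : M 2 1 < 0 → M 0 1 - M 2 1 < M 0 1 + (max (M 2 1) 0 + max (M 3 1) 0 + max (M 4 1) 0 +
      max (M 5 1) 0) := by
    intro h
    have := hG 1 0 2 (by decide) hA h
    rw [Fin.sum_univ_six, z11, max_self, m01] at this
    linarith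
  have r3 : M 0 3 < 0 → M 0 1 - M 0 3 < M 0 1 + (max (M 0 2) 0 + max (M 0 3) 0 + max (M 0 4) 0 +
      max (M 0 5) 0) := by
    intro h
    have := hF 0 1 3 (by decide) hA h
    rw [Fin.sum_univ_six, z00, max_self, m01] at this
    linarith
  have c3 : M 3 1 < 0 → M 0 1 - M 3 1 < M 0 1 + (max (M 2 1) 0 + max (M 3 1) 0 + max (M 4 1) 0 +
      max (M 5 1) 0) := by
    intro h
    have := hG 1 0 3 (by decide) hA h
    rw [Fin.sum_univ_six, z11, max_self, m01] at this
    linarith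
  have r4 : M 0 4 < 0 → M 0 1 - M 0 4 < M 0 1 + (max (M 0 2) 0 + max (M 0 3) 0 + max (M 0 4) 0 +
      max (M 0 5) 0) := by
    intro h
    have := hF 0 1 4 (by decide) hA h
    rw [Fin.sum_univ_six, z00, max_self, m01] at this
    linarith
  have c4 : M 4 1 < 0 → M 0 1 - M 4 1 < M 0 1 + (max (M 2 1) 0 + max (M 3 1) 0 + max (M 4 1) 0 +
      max (M 5 1) 0) := by
    intro h
    have := hG 1 0 4 (by decide) hA h
    rw [Fin.sum_univ_six, z11, max_self, m01] at this
    linarith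
  have r5 : M 0 5 < 0 → M 0 1 - M 0 5 < M 0 1 + (max (M 0 2) 0 + max (M 0 3) 0 + max (M 0 4) 0 +
      max (M 0 5) 0) := by
    intro h
    have := hF 0 1 5 (by decide) hA h
    rw [Fin.sum_univ_six, z00, max_self, m01] at this
    linarith
  have c5 : M 5 1 < 0 → M 0 1 - M 5 1 < M 0 1 + (max (M 2 1) 0 + max (M 3 1) 0 + max (M 4 1) 0 +
      max (M 5 1) 0) := by
    intro h
    have := hG 1 0 5 (by decide) hA h
    rw [Fin.sum_univ_six, z11, max_self, m01] at this
    linarith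
  have L1 := Lone hA (q1 := M 0 2) (q2 := M 0 3) (q3 := M 0 4) (q4 := M 0 5) (by linarith)
    (by linarith [anti 0 2, hmax 2 0]) (by linarith [anti 0 3, hmax 3 0])
    (by linarith [anti 0 4, hmax 4 0]) (by linarith [anti 0 5, hmax 5 0]) r2 r3 r4 r5
  have L2 := Lone hA (q1 := M 2 1) (q2 := M 3 1) (q3 := M 4 1) (q4 := M 5 1) (by linarith)
    (by linarith [anti 2 1, hmax 1 2]) (by linarith [anti 3 1, hmax 1 3])
    (by linarith [anti 4 1, hmax 1 4]) (by linarith [anti 5 1, hmax 1 5]) c2 c3 c4 c5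
  have sm : ∀ f : Fin 6 → ℝ, ∑ l, f l = f 0 + f 1 + f 2 + f 3 + f 4 + f 5 := fun f =>
    Fin.sum_univ_six f
  rcases L1 with ⟨ap, an3, an4, an5, ac3, ac4, ac5⟩ | ⟨ap, an2, an4, an5, ac2, ac4, ac5⟩ | ⟨ap, an2, an3, an5, ac2, ac3, ac5⟩ | ⟨ap, an2, an3, an4, ac2, ac3, ac4⟩
  · rcases L2 with ⟨bp, bn3, bn4, bn5, bc3, bc4, bc5⟩ | ⟨bp, bn2, bn4, bn5, bc2, bc4, bc5⟩ | ⟨bp, bn2, bn3, bn5, bc2, bc3, bc5⟩ | ⟨bp, bn2, bn3, bn4, bc2, bc3, bc4⟩
    · exact caseA anti rs pl hF (x := 0) (y := 1) (z := 2) (u := 3) (v := 4) (w := 5)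
        (fun f => by linarith [sm f]) (by decide) hA hmax
        ap an3 an4 an5 ac3 ac4 ac5 bp bn3 bn4 bn5 bc3 bc4 bc5
    · exact caseB anti rs pl hF (x := 0) (y := 1) (z1 := 2) (z2 := 3) (u := 4) (v := 5)
        (fun f => by linarith [sm f]) (by decide) (by decide) (by decide) hA
        ap an3 an4 an5 ac3 bp bn2 bn4 bn5 bc2 bc4 bc5
    · exact caseB anti rs pl hF (x := 0) (y := 1) (z1 := 2) (z2 := 4) (u := 3) (v := 5)
        (fun f => by linarith [sm f]) (by decide) (by decide) (by decide) hA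
        ap an4 an3 an5 ac4 bp bn2 bn3 bn5 bc2 bc3 bc5
    · exact caseB anti rs pl hF (x := 0) (y := 1) (z1 := 2) (z2 := 5) (u := 3) (v := 4)
        (fun f => by linarith [sm f]) (by decide) (by decide) (by decide) hA
        ap an5 an3 an4 ac5 bp bn2 bn3 bn4 bc2 bc3 bc4
  · rcases L2 with ⟨bp, bn3, bn4, bn5, bc3, bc4, bc5⟩ | ⟨bp, bn2, bn4, bn5, bc2, bc4, bc5⟩ | ⟨bp, bn2, bn3, bn5, bc2, bc3, bc5⟩ | ⟨bp, bn2, bn3, bn4, bc2, bc3, bc4⟩
    · exact caseB anti rs pl hF (x := 0) (y := 1) (z1 := 3) (z2 := 2) (u := 4) (v := 5)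
        (fun f => by linarith [sm f]) (by decide) (by decide) (by decide) hA
        ap an2 an4 an5 ac2 bp bn3 bn4 bn5 bc3 bc4 bc5
    · exact caseA anti rs pl hF (x := 0) (y := 1) (z := 3) (u := 2) (v := 4) (w := 5)
        (fun f => by linarith [sm f]) (by decide) hA hmax
        ap an2 an4 an5 ac2 ac4 ac5 bp bn2 bn4 bn5 bc2 bc4 bc5
    · exact caseB anti rs pl hF (x := 0) (y := 1) (z1 := 3) (z2 := 4) (u := 2) (v := 5)
        (fun f => by linarith [sm f]) (by decide) (by decide) (by decide) hA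
        ap an4 an2 an5 ac4 bp bn3 bn2 bn5 bc3 bc2 bc5
    · exact caseB anti rs pl hF (x := 0) (y := 1) (z1 := 3) (z2 := 5) (u := 2) (v := 4)
        (fun f => by linarith [sm f]) (by decide) (by decide) (by decide) hA
        ap an5 an2 an4 ac5 bp bn3 bn2 bn4 bc3 bc2 bc4
  · rcases L2 with ⟨bp, bn3, bn4, bn5, bc3, bc4, bc5⟩ | ⟨bp, bn2, bn4, bn5, bc2, bc4, bc5⟩ | ⟨bp, bn2, bn3, bn5, bc2, bc3, bc5⟩ | ⟨bp, bn2, bn3, bn4, bc2, bc3, bc4⟩
    · exact caseB anti rs pl hF (x := 0) (y := 1) (z1 := 4) (z2 := 2) (u := 3) (v := 5)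
        (fun f => by linarith [sm f]) (by decide) (by decide) (by decide) hA
        ap an2 an3 an5 ac2 bp bn4 bn3 bn5 bc4 bc3 bc5
    · exact caseB anti rs pl hF (x := 0) (y := 1) (z1 := 4) (z2 := 3) (u := 2) (v := 5)
        (fun f => by linarith [sm f]) (by decide) (by decide) (by decide) hA
        ap an3 an2 an5 ac3 bp bn4 bn2 bn5 bc4 bc2 bc5
    · exact caseA anti rs pl hF (x := 0) (y := 1) (z := 4) (u := 2) (v := 3) (w := 5)
        (fun f => by linarith [sm f]) (by decide) hA hmax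
        ap an2 an3 an5 ac2 ac3 ac5 bp bn2 bn3 bn5 bc2 bc3 bc5
    · exact caseB anti rs pl hF (x := 0) (y := 1) (z1 := 4) (z2 := 5) (u := 2) (v := 3)
        (fun f => by linarith [sm f]) (by decide) (by decide) (by decide) hA
        ap an5 an2 an3 ac5 bp bn4 bn2 bn3 bc4 bc2 bc3
  · rcases L2 with ⟨bp, bn3, bn4, bn5, bc3, bc4, bc5⟩ | ⟨bp, bn2, bn4, bn5, bc2, bc4, bc5⟩ | ⟨bp, bn2, bn3, bn5, bc2, bc3, bc5⟩ | ⟨bp, bn2, bn3, bn4, bc2, bc3, bc4⟩
    · exact caseB anti rs pl hF (x := 0) (y := 1) (z1 := 5) (z2 := 2) (u := 3) (v := 4)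
        (fun f => by linarith [sm f]) (by decide) (by decide) (by decide) hA
        ap an2 an3 an4 ac2 bp bn5 bn3 bn4 bc5 bc3 bc4
    · exact caseB anti rs pl hF (x := 0) (y := 1) (z1 := 5) (z2 := 3) (u := 2) (v := 4)
        (fun f => by linarith [sm f]) (by decide) (by decide) (by decide) hA
        ap an3 an2 an4 ac3 bp bn5 bn2 bn4 bc5 bc2 bc4
    · exact caseB anti rs pl hF (x := 0) (y := 1) (z1 := 5) (z2 := 4) (u := 2) (v := 3)
        (fun f => by linarith [sm f]) (by decide) (by decide) (by decide) hA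
        ap an4 an2 an3 ac4 bp bn5 bn2 bn3 bc5 bc2 bc3
    · exact caseA anti rs pl hF (x := 0) (y := 1) (z := 5) (u := 2) (v := 3) (w := 4)
        (fun f => by linarith [sm f]) (by decide) hA hmax
        ap an2 an3 an4 ac2 ac3 ac4 bp bn2 bn3 bn4 bc2 bc3 bc4

/-- the same with any maximal pair -/
theorem core' {M : Fin 6 → Fin 6 → ℝ} (anti : ∀ k l, M k l = - M l k)
    (rs : ∀ k, ∑ l, M k l = 0)
    (pl : ∀ x y k l, M x y * M k l = M k y * M x l - M x k * M l y)
    (hF : ∀ k i j, i ≠ j → 0 < M k i → M k j < 0 → M k i - M k j < ∑ l, max (M k l) 0)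
    (hG : ∀ k i j, i ≠ j → 0 < M i k → M j k < 0 → M i k - M j k < ∑ l, max (M l k) 0)
    (hne : ∃ x y, M x y ≠ 0) : False := by
  classical
  obtain ⟨⟨x, y⟩, hxy⟩ := Finite.exists_max (fun p : Fin 6 × Fin 6 => M p.1 p.2)
  have hmax : ∀ k l, M k l ≤ M x y := fun k l => hxy (k, l)
  have hA : 0 < M x y := by
    obtain ⟨a, b, hab⟩ := hne
    rcases lt_or_gt_of_ne hab with h | h
    · have := hmax b a
      linarith [anti a b]
    · exact h.trans_le (hmax a b)
  have hx : x ≠ y := by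
    rintro rfl
    linarith [anti x x]
  obtain ⟨e, e0, e1⟩ : ∃ e : Equiv.Perm (Fin 6), e 0 = x ∧ e 1 = y := by
    refine ⟨(Equiv.swap 0 x).trans (Equiv.swap (Equiv.swap 0 x 1) y), ?_, ?_⟩
    · rw [Equiv.trans_apply, Equiv.swap_apply_left]
      apply Equiv.swap_apply_of_ne_of_ne _ hx
      intro h
      have := (Equiv.swap 0 x).injective ((Equiv.swap_apply_left 0 x).trans h)
      exact absurd this (by decide)
    · rw [Equiv.trans_apply, Equiv.swap_apply_left]
  refine core (M := fun k l => M (e k) (e l)) (fun k l => anti _ _) ?_ (fun x y k l => pl _ _ _ _)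
    ?_ ?_ ?_ ?_
  · intro k
    rw [Equiv.sum_comp e (fun l => M (e k) l)]
    exact rs _
  · intro k i j hij h1 h2
    have := hF (e k) (e i) (e j) (fun h => hij (e.injective h)) h1 h2
    rw [← Equiv.sum_comp e] at this
    exact this
  · intro k i j hij h1 h2
    have := hG (e k) (e i) (e j) (fun h => hij (e.injective h)) h1 h2
    rw [← Equiv.sum_comp e] at this
    exact this
  · simp only [e0, e1]; exact hA
  · intro k l
    simp only [e0, e1]; exact hmax _ _

/-- no six points of `ℝ³` are pairwise strictly antipodal -/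
theorem kappa {p : Fin 6 → EuclideanSpace ℝ (Fin 3)}
    (hp : ∀ i j, i ≠ j → ∃ f : EuclideanSpace ℝ (Fin 3) →L[ℝ] ℝ,
      (∀ l, l ≠ i → f (p i) < f (p l)) ∧ (∀ l, l ≠ j → f (p l) < f (p j))) : False := by
  classical
  set Φ : (Fin 6 → ℝ) →ₗ[ℝ] EuclideanSpace ℝ (Fin 3) × ℝ :=
    LinearMap.prod (Fintype.linearCombination ℝ p)
      (Fintype.linearCombination ℝ (fun _ : Fin 6 => (1 : ℝ))) with hΦ
  have hr := LinearMap.finrank_range_add_finrank_ker Φ
  have h6 : Module.finrank ℝ (Fin 6 → ℝ) = 6 := by simp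
  have h4 : Module.finrank ℝ (LinearMap.range Φ) ≤ 4 := by
    refine (Submodule.finrank_le _).trans ?_
    rw [Module.finrank_prod, finrank_euclideanSpace_fin, Module.finrank_self]
  have hk : 1 < Module.finrank ℝ (LinearMap.ker Φ) := by omega
  have : Nontrivial (LinearMap.ker Φ) := Module.nontrivial_of_finrank_pos (R := ℝ) (by omega)
  obtain ⟨a, ha⟩ := exists_ne (0 : LinearMap.ker Φ)
  obtain ⟨b, hab⟩ := exists_linearIndependent_pair_of_one_lt_finrank hk ha
  have dep : ∀ c : LinearMap.ker Φ, (∑ l, (c : Fin 6 → ℝ) l = 0) ∧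
      ∀ f : EuclideanSpace ℝ (Fin 3) →L[ℝ] ℝ, ∑ l, (c : Fin 6 → ℝ) l * f (p l) = 0 := by
    intro c
    have hc : Φ c = 0 := c.2
    have hc1 : Fintype.linearCombination ℝ p (c : Fin 6 → ℝ) = 0 := congrArg Prod.fst hc
    have hc2 : Fintype.linearCombination ℝ (fun _ : Fin 6 => (1 : ℝ)) (c : Fin 6 → ℝ) = 0 :=
      congrArg Prod.snd hc
    rw [Fintype.linearCombination_apply] at hc1 hc2
    refine ⟨by simpa using hc2, fun f => ?_⟩
    have := congrArg f hc1
    rw [map_sum, map_zero] at this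
    simpa only [map_smul, smul_eq_mul] using this
  obtain ⟨a1, a2⟩ := dep a
  obtain ⟨b1, b2⟩ := dep b
  set u : Fin 6 → ℝ := (a : Fin 6 → ℝ) with hu
  set v : Fin 6 → ℝ := (b : Fin 6 → ℝ) with hv
  have lin : ∀ (s t : ℝ) (F : Fin 6 → ℝ), ∑ l, (s * u l + t * v l) * F l =
      s * ∑ l, u l * F l + t * ∑ l, v l * F l := by
    intro s t F
    rw [Finset.mul_sum, Finset.mul_sum, ← Finset.sum_add_distrib]
    exact Finset.sum_congr rfl fun l _ => by ring
  have lin0 : ∀ (s t : ℝ), ∑ l, (s * u l + t * v l) = 0 := by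
    intro s t
    have := lin s t (fun _ => 1)
    simpa [a1, b1] using this
  have lin1 : ∀ (s t : ℝ) (f : EuclideanSpace ℝ (Fin 3) →L[ℝ] ℝ),
      ∑ l, (s * u l + t * v l) * f (p l) = 0 := by
    intro s t f
    rw [lin s t (fun l => f (p l)), a2 f, b2 f]; ring
  have F0 : ∀ (s t : ℝ) (i j : Fin 6), i ≠ j → 0 < s * u i + t * v i → s * u j + t * v j < 0 →
      (s * u i + t * v i) - (s * u j + t * v j) < ∑ l, max (s * u l + t * v l) 0 := by
    intro s t i j hij h1 h2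
    obtain ⟨f, f1, f2⟩ := hp i j hij
    exact dep_ineq (ν := fun l => s * u l + t * v l) (F := fun l => f (p l)) hij (lin0 s t)
      (lin1 s t f) f1 f2 h1 h2
  refine core' (M := fun k l => u k * v l - u l * v k) (fun k l => by ring) ?_
    (fun x y k l => by ring) ?_ ?_ ?_
  · intro k
    have := lin0 (-v k) (u k)
    rw [← this]
    exact Finset.sum_congr rfl fun l _ => by ring
  · intro k i j hij h1 h2
    have := F0 (-v k) (u k) i j hij (by linarith) (by linarith)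
    have e : ∀ l, -v k * u l + u k * v l = u k * v l - u l * v k := fun l => by ring
    simp only [e] at this
    exact this
  · intro k i j hij h1 h2
    have := F0 (v k) (-u k) i j hij (by linarith) (by linarith)
    have e : ∀ l, v k * u l + -u k * v l = u l * v k - u k * v l := fun l => by ring
    simp only [e] at this
    exact this
  · by_contra hcon
    push Not at hcon
    obtain ⟨i, hi⟩ : ∃ i, u i ≠ 0 := by
      by_contra h
      push Not at h
      exact ha (Subtype.ext (funext h))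
    have := (LinearIndependent.pair_iff.1 hab) (v i) (-u i) (by
      apply Subtype.ext
      funext l
      have := hcon i l
      change v i * u l + -u i * v l = 0
      linarith)
    exact hi (by linarith [this.2])

end Helper580.PT
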