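import Pool.Agent.Helper580.PT.Body

set_option autoImplicit false

namespace Helper580.PT

open Set

theorem ofQ {a b c : ℝ} (ha : 0 ≤ a) (hb : 0 ≤ b) (hc : 0 ≤ c) (h : Q a b c) :
    a + b ≤ 1 ∧ c ^ 2 ≤ 2 * (1 - a - b) := by
  obtain ⟨h1, h2⟩ := h
  rw [max_eq_left ha, max_eq_left hb] at h1 h2
  rw [max_eq_left hc] at h2
  refine ⟨h1, h2.trans ?_⟩
  nlinarith

theorem abs_K {x : Fin 3 → ℝ} (hx : x ∈ K) :
    Q3 |x 0| |x 1| |x 2| ∨ Q3 |x 1| |x 0| |x 2| := by
  obtain ⟨x1, x2, x3, x4, x5, x6, x7, x8⟩ := hx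
  rcases abs_cases (x 0) with ⟨e0, -⟩ | ⟨e0, -⟩ <;>
    rcases abs_cases (x 1) with ⟨e1, -⟩ | ⟨e1, -⟩ <;>
      rcases abs_cases (x 2) with ⟨e2, -⟩ | ⟨e2, -⟩ <;> rw [e0, e1, e2] <;>
        first | exact Or.inl (by assumption) | exact Or.inr (by assumption)

theorem facts {x : Fin 3 → ℝ} (hx : x ∈ K) :
    (|x 0| + |x 1| ≤ 1 ∧ (x 2) ^ 2 ≤ 2 * (1 - |x 0| - |x 1|)) ∧
    (|x 1| + |x 2| ≤ 1 ∧ (x 0) ^ 2 ≤ 2 * (1 - |x 1| - |x 2|)) ∧
    (|x 0| + |x 2| ≤ 1 ∧ (x 1) ^ 2 ≤ 2 * (1 - |x 0| - |x 2|)) := by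
  have h0 := abs_nonneg (x 0)
  have h1 := abs_nonneg (x 1)
  have h2 := abs_nonneg (x 2)
  rw [← sq_abs (x 0), ← sq_abs (x 1), ← sq_abs (x 2)]
  rcases abs_K hx with ⟨p, q, r⟩ | ⟨p, q, r⟩
  · obtain ⟨p1, p2⟩ := ofQ h0 h1 h2 p
    obtain ⟨q1, q2⟩ := ofQ h1 h2 h0 q
    obtain ⟨r1, r2⟩ := ofQ h2 h0 h1 r
    exact ⟨⟨p1, p2⟩, ⟨q1, q2⟩, ⟨by linarith, by linarith⟩⟩
  · obtain ⟨p1, p2⟩ := ofQ h1 h0 h2 p
    obtain ⟨q1, q2⟩ := ofQ h0 h2 h1 q
    obtain ⟨r1, r2⟩ := ofQ h2 h1 h0 r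
    exact ⟨⟨by linarith, by linarith⟩, ⟨by linarith, by linarith⟩, ⟨q1, q2⟩⟩

theorem Q_zero {a b c : ℝ} (h : a ≤ 0 ∨ b ≤ 0 ∨ c ≤ 0) (hab : max a 0 + max b 0 ≤ 1)
    (hbc : max b 0 + max c 0 ≤ 1) (hac : max a 0 + max c 0 ≤ 1) : Q a b c := by
  refine ⟨hab, ?_⟩
  have a0 : 0 ≤ max a 0 := le_max_right _ _
  have b0 : 0 ≤ max b 0 := le_max_right _ _
  have c0 : 0 ≤ max c 0 := le_max_right _ _
  rcases h with h | h | h
  · rw [max_eq_right h] at *
    nlinarith
  · rw [max_eq_right h] at *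
    nlinarith
  · rw [max_eq_right h]
    nlinarith

theorem Q3_zero {a b c : ℝ} (h : a ≤ 0 ∨ b ≤ 0 ∨ c ≤ 0) (hab : max a 0 + max b 0 ≤ 1)
    (hbc : max b 0 + max c 0 ≤ 1) (hac : max a 0 + max c 0 ≤ 1) : Q3 a b c := by
  refine ⟨Q_zero h hab hbc hac, Q_zero ?_ hbc (by linarith) (by linarith),
    Q_zero ?_ (by linarith) hab (by linarith)⟩
  · tauto
  · tauto

/-- the vertices -/
def V : Fin 6 → Fin 3 → ℝ :=
  ![![1, 0, 0], ![0, 1, 0], ![0, 0, 1], ![-1, 0, 0], ![0, -1, 0], ![0, 0, -1]]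

theorem V_mem (m : Fin 6) : V m ∈ K := by
  have w : ∀ a b c : ℝ, (![a, b, c] : Fin 3 → ℝ) 2 = c := fun _ _ _ => rfl
  fin_cases m <;> refine ⟨?_, ?_, ?_, ?_, ?_, ?_, ?_, ?_⟩ <;> apply Q3_zero <;>
    norm_num [V, w]

def rho (x : Fin 3 → ℝ) : Fin 3 → ℝ := ![x 1, x 2, x 0]
def zeta (x : Fin 3 → ℝ) : Fin 3 → ℝ := ![-x 0, -x 1, x 2]
def kap (x : Fin 3 → ℝ) : Fin 3 → ℝ := ![x 1, x 0, -x 2]

theorem cyc {a b c : ℝ} (h : Q3 a b c) : Q3 b c a := ⟨h.2.1, h.2.2, h.1⟩

theorem K_rho {x : Fin 3 → ℝ} (hx : x ∈ K) : rho x ∈ K := by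
  obtain ⟨h1, h2, h3, h4, h5, h6, h7, h8⟩ := hx
  exact ⟨cyc h1, cyc h3, cyc h4, cyc h2, cyc (cyc h7), cyc (cyc h5), cyc (cyc h6),
    cyc (cyc h8)⟩

theorem K_zeta {x : Fin 3 → ℝ} (hx : x ∈ K) : zeta x ∈ K := by
  obtain ⟨h1, h2, h3, h4, h5, h6, h7, h8⟩ := hx
  refine ⟨?_, ?_, ?_, ?_, ?_, ?_, ?_, ?_⟩ <;> simp only [zeta, Matrix.cons_val_zero,
    Matrix.cons_val_one, Matrix.cons_val, neg_neg] <;> assumption

theorem K_kap {x : Fin 3 → ℝ} (hx : x ∈ K) : kap x ∈ K := by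
  obtain ⟨h1, h2, h3, h4, h5, h6, h7, h8⟩ := hx
  refine ⟨?_, ?_, ?_, ?_, ?_, ?_, ?_, ?_⟩ <;> simp only [kap, Matrix.cons_val_zero,
    Matrix.cons_val_one, Matrix.cons_val, neg_neg] <;> assumption

/-- arbitrarily near `p` there are points of `K` which are not covered by `K + τ (p + r)` -/
def Bad (p r : Fin 3 → ℝ) : Prop := ∀ τ : ℝ, 0 < τ → τ ≤ 1 → ∀ ε : ℝ, 0 < ε →
  ∃ x ∈ K, (∀ i, |x i - p i| < ε) ∧ (fun i => x i - τ * (p i + r i)) ∉ K

theorem bad_rho {p r : Fin 3 → ℝ} (h : Bad p r) : Bad (rho p) (rho r) := by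
  intro τ h1 h2 ε hε
  obtain ⟨x, hx, hd, hn⟩ := h τ h1 h2 ε hε
  refine ⟨rho x, K_rho hx, ?_, fun hk => hn ?_⟩
  · intro i
    fin_cases i
    · exact hd 1
    · exact hd 2
    · exact hd 0
  · have e := K_rho (K_rho hk)
    convert e using 1
    ext i
    fin_cases i <;> simp [rho]

theorem bad_zeta {p r : Fin 3 → ℝ} (h : Bad p r) : Bad (zeta p) (zeta r) := by
  intro τ h1 h2 ε hε
  obtain ⟨x, hx, hd, hn⟩ := h τ h1 h2 ε hε
  refine ⟨zeta x, K_zeta hx, ?_, fun hk => hn ?_⟩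
  · intro i
    fin_cases i
    · have := hd 0
      rw [← abs_neg] at this
      convert this using 2
      simp [zeta]; ring
    · have := hd 1
      rw [← abs_neg] at this
      convert this using 2
      simp [zeta]; ring
    · exact hd 2
  · have e := K_zeta hk
    convert e using 1
    ext i
    fin_cases i <;> simp [zeta] <;> ring

theorem bad_kap {p r : Fin 3 → ℝ} (h : Bad p r) : Bad (kap p) (kap r) := by
  intro τ h1 h2 ε hε
  obtain ⟨x, hx, hd, hn⟩ := h τ h1 h2 ε hε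
  refine ⟨kap x, K_kap hx, ?_, fun hk => hn ?_⟩
  · intro i
    fin_cases i
    · exact hd 1
    · exact hd 0
    · have := hd 2
      rw [← abs_neg] at this
      convert this using 2
      simp [kap]; ring
  · have e := K_kap hk
    convert e using 1
    ext i
    fin_cases i <;> simp [kap] <;> ring

theorem x_mem {s : ℝ} (hs : 0 < s) (hs1 : s ≤ 1 / 2) :
    (![1 - s, -(s - s ^ 2 * (1 + s) / 8), -(s / 2)] : Fin 3 → ℝ) ∈ K := by
  set b := s - s ^ 2 * (1 + s) / 8 with hb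
  have hb0 : 0 < b := by rw [hb]; nlinarith [mul_pos hs hs]
  have hbs : b < s := by rw [hb]; nlinarith [mul_pos hs hs]
  have ma : max (1 - s) 0 = 1 - s := max_eq_left (by linarith)
  have mb : max b 0 = b := max_eq_left hb0.le
  have mh : max (s / 2) 0 = s / 2 := max_eq_left (by linarith)
  have na : max (-(1 - s)) 0 = 0 := max_eq_right (by linarith)
  have nb : max (-b) 0 = 0 := max_eq_right (by linarith)
  have nh : max (-(s / 2)) 0 = 0 := max_eq_right (by linarith)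
  have main : Q3 (1 - s) b (s / 2) := by
    refine ⟨?_, ?_, ?_⟩
    · refine ⟨by rw [ma, mb]; linarith, ?_⟩
      rw [ma, mb, mh]
      have e : (1 - (1 - s) - b) = s ^ 2 * (1 + s) / 8 := by rw [hb]; ring
      rw [e]
      nlinarith [mul_pos hs hs, mul_pos (mul_pos hs hs) hs]
    · refine ⟨by rw [mb, mh]; linarith, ?_⟩
      rw [ma, mb, mh]
      nlinarith [mul_pos hs hs, mul_pos hs hb0]
    · refine ⟨by rw [ma, mh]; linarith, ?_⟩
      rw [ma, mb, mh]
      nlinarith [mul_pos hs hs, mul_pos hs hb0]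
  refine ⟨?_, ?_, ?_, ?_, ?_, ?_, ?_, ?_⟩
  · change Q3 (1 - s) (-b) (-(s / 2))
    apply Q3_zero
    · right; left; linarith
    · rw [ma, nb]; linarith
    · rw [nb, nh]; linarith
    · rw [ma, nh]; linarith
  · change Q3 (1 - s) (-(-b)) (-(-(s / 2)))
    rw [neg_neg, neg_neg]; exact main
  · change Q3 (-(1 - s)) (-b) (-(-(s / 2)))
    rw [neg_neg]
    apply Q3_zero
    · right; left; linarith
    · rw [na, nb]; linarith
    · rw [nb, mh]; linarith
    · rw [na, mh]; linarith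
  · change Q3 (-(1 - s)) (-(-b)) (-(s / 2))
    rw [neg_neg]
    apply Q3_zero
    · left; linarith
    · rw [na, mb]; linarith
    · rw [mb, nh]; linarith
    · rw [na, nh]; linarith
  · change Q3 (-b) (1 - s) (-(-(s / 2)))
    rw [neg_neg]
    apply Q3_zero
    · left; linarith
    · rw [nb, ma]; linarith
    · rw [ma, mh]; linarith
    · rw [nb, mh]; linarith
  · change Q3 (-(-b)) (1 - s) (-(s / 2))
    rw [neg_neg]
    apply Q3_zero
    · right; right; linarith
    · rw [mb, ma]; linarith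
    · rw [ma, nh]; linarith
    · rw [mb, nh]; linarith
  · change Q3 (-b) (-(1 - s)) (-(s / 2))
    apply Q3_zero
    · left; linarith
    · rw [nb, na]; linarith
    · rw [na, nh]; linarith
    · rw [nb, nh]; linarith
  · change Q3 (-(-b)) (-(1 - s)) (-(-(s / 2)))
    rw [neg_neg, neg_neg]
    apply Q3_zero
    · right; left; linarith
    · rw [mb, na]; linarith
    · rw [na, mh]; linarith
    · rw [mb, mh]; linarith

theorem bad_base : Bad ![1, 0, 0] ![0, 1, 0] := by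
  intro τ h1 h2 ε hε
  obtain ⟨s, hs0, hs1, hs2, hs3, hs4⟩ : ∃ s : ℝ, 0 < s ∧ s ≤ 1 / 2 ∧ s < τ ∧ s < ε ∧
      (τ < 1 → s < 1 - τ) := by
    rcases h2.lt_or_eq with h | h
    · refine ⟨min (min (1 / 2) (τ / 2)) (min (ε / 2) ((1 - τ) / 2)), ?_, ?_, ?_, ?_, ?_⟩
      · refine lt_min (lt_min (by norm_num) (by linarith)) (lt_min (by linarith) (by linarith))
      · exact (min_le_left _ _).trans (min_le_left _ _)
      · exact lt_of_le_of_lt ((min_le_left _ _).trans (min_le_right _ _)) (by linarith)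
      · exact lt_of_le_of_lt ((min_le_right _ _).trans (min_le_left _ _)) (by linarith)
      · intro _
        exact lt_of_le_of_lt ((min_le_right _ _).trans (min_le_right _ _)) (by linarith)
    · refine ⟨min (1 / 2) (ε / 2), lt_min (by norm_num) (by linarith), min_le_left _ _, ?_, ?_, ?_⟩
      · exact lt_of_le_of_lt (min_le_left _ _) (by linarith)
      · exact lt_of_le_of_lt (min_le_right _ _) (by linarith)
      · intro h'; linarith
  have hb0 : 0 < s - s ^ 2 * (1 + s) / 8 := by nlinarith [mul_pos hs0 hs0]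
  have hbs : s - s ^ 2 * (1 + s) / 8 < s := by nlinarith [mul_pos hs0 hs0]
  refine ⟨_, x_mem hs0 hs1, ?_, ?_⟩
  · intro i
    fin_cases i
    · simp [abs_lt]; constructor <;> linarith
    · simp only [Fin.mk_one, Matrix.cons_val_one, Matrix.cons_val_zero, sub_zero, abs_neg]
      rw [abs_of_pos hb0]; linarith
    · simp only [Fin.reduceFinMk, Matrix.cons_val, sub_zero, abs_neg]
      rw [abs_of_pos (by linarith)]; linarith
  · intro hk
    have h := hk.2.1.1
    have h' : Q (1 - s - τ) (s - s ^ 2 * (1 + s) / 8 + τ) (s / 2) := by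
      convert h using 1
      · simp
      · simp; ring
      · simp
    obtain ⟨p, q⟩ := h'
    have mb : max (s - s ^ 2 * (1 + s) / 8 + τ) 0 = s - s ^ 2 * (1 + s) / 8 + τ :=
      max_eq_left (by linarith)
    rcases h2.lt_or_eq with h3 | h3
    · have h4 := hs4 h3
      have ma : max (1 - s - τ) 0 = 1 - s - τ := max_eq_left (by linarith)
      rw [ma, mb, max_eq_left (by linarith : (0:ℝ) ≤ s / 2)] at q
      have e : (1 - (1 - s - τ) - (s - s ^ 2 * (1 + s) / 8 + τ)) * (1 + (1 - s - τ)) =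
          s ^ 2 / 8 * (2 - τ + s * (1 - s - τ)) := by ring
      rw [e] at q
      have h5 : s * (1 - s - τ) < τ := by nlinarith
      have h6 : s ^ 2 / 8 * (2 - τ + s * (1 - s - τ)) < s ^ 2 / 8 * 2 :=
        mul_lt_mul_of_pos_left (by linarith) (by positivity)
      nlinarith
    · rw [mb] at p
      have := le_max_right (1 - s - τ) 0
      linarith

theorem bad_all : ∀ m n : Fin 6, m ≠ n → n ≠ m + 3 → Bad (V m) (V n) := by
  have b01 : Bad (V 0) (V 1) := by
    have h := bad_base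
    simpa [V, rho, zeta, kap] using h
  have b20 : Bad (V 2) (V 0) := by
    have h := (bad_rho bad_base)
    simpa [V, rho, zeta, kap] using h
  have b34 : Bad (V 3) (V 4) := by
    have h := (bad_zeta bad_base)
    simpa [V, rho, zeta, kap] using h
  have b10 : Bad (V 1) (V 0) := by
    have h := (bad_kap bad_base)
    simpa [V, rho, zeta, kap] using h
  have b12 : Bad (V 1) (V 2) := by
    have h := (bad_rho (bad_rho bad_base))
    simpa [V, rho, zeta, kap] using h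
  have b23 : Bad (V 2) (V 3) := by
    have h := (bad_zeta (bad_rho bad_base))
    simpa [V, rho, zeta, kap] using h
  have b51 : Bad (V 5) (V 1) := by
    have h := (bad_kap (bad_rho bad_base))
    simpa [V, rho, zeta, kap] using h
  have b53 : Bad (V 5) (V 3) := by
    have h := (bad_rho (bad_zeta bad_base))
    simpa [V, rho, zeta, kap] using h
  have b43 : Bad (V 4) (V 3) := by
    have h := (bad_kap (bad_zeta bad_base))
    simpa [V, rho, zeta, kap] using h
  have b02 : Bad (V 0) (V 2) := by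
    have h := (bad_rho (bad_kap bad_base))
    simpa [V, rho, zeta, kap] using h
  have b42 : Bad (V 4) (V 2) := by
    have h := (bad_zeta (bad_rho (bad_rho bad_base)))
    simpa [V, rho, zeta, kap] using h
  have b05 : Bad (V 0) (V 5) := by
    have h := (bad_kap (bad_rho (bad_rho bad_base)))
    simpa [V, rho, zeta, kap] using h
  have b15 : Bad (V 1) (V 5) := by
    have h := (bad_rho (bad_zeta (bad_rho bad_base)))
    simpa [V, rho, zeta, kap] using h
  have b54 : Bad (V 5) (V 4) := by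
    have h := (bad_kap (bad_zeta (bad_rho bad_base)))
    simpa [V, rho, zeta, kap] using h
  have b40 : Bad (V 4) (V 0) := by
    have h := (bad_rho (bad_kap (bad_rho bad_base)))
    simpa [V, rho, zeta, kap] using h
  have b45 : Bad (V 4) (V 5) := by
    have h := (bad_rho (bad_rho (bad_zeta bad_base)))
    simpa [V, rho, zeta, kap] using h
  have b50 : Bad (V 5) (V 0) := by
    have h := (bad_zeta (bad_rho (bad_zeta bad_base)))
    simpa [V, rho, zeta, kap] using h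
  have b24 : Bad (V 2) (V 4) := by
    have h := (bad_kap (bad_rho (bad_zeta bad_base)))
    simpa [V, rho, zeta, kap] using h
  have b35 : Bad (V 3) (V 5) := by
    have h := (bad_rho (bad_kap (bad_zeta bad_base)))
    simpa [V, rho, zeta, kap] using h
  have b21 : Bad (V 2) (V 1) := by
    have h := (bad_rho (bad_rho (bad_kap bad_base)))
    simpa [V, rho, zeta, kap] using h
  have b32 : Bad (V 3) (V 2) := by
    have h := (bad_zeta (bad_rho (bad_kap bad_base)))
    simpa [V, rho, zeta, kap] using h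
  have b31 : Bad (V 3) (V 1) := by
    have h := (bad_rho (bad_zeta (bad_rho (bad_rho bad_base))))
    simpa [V, rho, zeta, kap] using h
  have b04 : Bad (V 0) (V 4) := by
    have h := (bad_rho (bad_rho (bad_zeta (bad_rho bad_base))))
    simpa [V, rho, zeta, kap] using h
  have b13 : Bad (V 1) (V 3) := by
    have h := (bad_zeta (bad_rho (bad_kap (bad_rho bad_base))))
    simpa [V, rho, zeta, kap] using h
  intro m n h1 h2
  fin_cases m <;> fin_cases n <;> first | exact absurd rfl h1 | exact absurd rfl h2 | assumption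

end Helper580.PT
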