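import Pool.Agent.Helper580.PT.Cover

set_option autoImplicit false

/-!
A convex body in `ℝ³` which is not covered by five of its proper translates.
Hence the largest covering number by proper translates in `ℝ³` is at least `6`, which is more than
the largest number `5` of vertices of a `0`-antipodal polytope in `ℝ³` (Grünbaum).
-/

namespace Helper580.PT.SixBody

open Set Helper580.PT

theorem exists_cover {K : Set (EuclideanSpace ℝ (Fin 3))} (hK : IsCompact K)
    (hi : (interior K).Nonempty) :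
    ∃ k : ℕ, ∃ t : Fin k → EuclideanSpace ℝ (Fin 3),
      (∀ i, t i ≠ 0) ∧ K ⊆ ⋃ i, (fun p => t i + p) '' K := by
  classical
  have hinf : (interior K).Infinite := by
    apply infinite_of_mem_nhds hi.some
    exact isOpen_interior.mem_nhds hi.some_mem
  have hq : ∀ p : EuclideanSpace ℝ (Fin 3), ∃ q ∈ interior K, q ≠ p := by
    intro p
    by_contra hcon
    push Not at hcon
    exact hinf ((finite_singleton p).subset fun q hq => hcon q hq)
  choose q hqi hqp using hq
  have hopen : ∀ p : EuclideanSpace ℝ (Fin 3), IsOpen ((fun x => x - (p - q p)) ⁻¹' interior K) :=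
    fun p => isOpen_interior.preimage (continuous_id.sub continuous_const)
  obtain ⟨b, hb, hcov⟩ := hK.elim_finite_subcover_image (b := K)
    (c := fun p => (fun x => x - (p - q p)) ⁻¹' interior K) (fun p _ => hopen p) (by
      intro p hp
      refine mem_iUnion₂.2 ⟨p, hp, ?_⟩
      simp only [mem_preimage, sub_sub_cancel]
      exact hqi p)
  obtain ⟨hfin, hcov⟩ := hcov
  set F : Finset (EuclideanSpace ℝ (Fin 3)) := hfin.toFinset with hF
  refine ⟨F.card, fun i => (F.equivFin.symm i : EuclideanSpace ℝ (Fin 3)) -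
    q (F.equivFin.symm i), fun i => ?_, ?_⟩
  · rw [sub_ne_zero]
    exact (hqp _).symm
  · intro x hx
    obtain ⟨p, hp, hxp⟩ := mem_iUnion₂.1 (hcov hx)
    have hpF : p ∈ F := hfin.mem_toFinset.2 hp
    refine mem_iUnion.2 ⟨F.equivFin ⟨p, hpF⟩, x - (p - q p), interior_subset hxp, ?_⟩
    simp

theorem six_body : ∃ m : ℕ, 6 ≤ m ∧ ∃ K : Set (EuclideanSpace ℝ (Fin 3)),
    Convex ℝ K ∧ IsCompact K ∧ (interior K).Nonempty ∧
    IsLeast
      {k : ℕ | ∃ t : Fin k → EuclideanSpace ℝ (Fin 3),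
          (∀ i, t i ≠ 0) ∧ K ⊆ ⋃ i, (fun p => t i + p) '' K}
      m := by
  classical
  set L : EuclideanSpace ℝ (Fin 3) ≃L[ℝ] (Fin 3 → ℝ) := EuclideanSpace.equiv (Fin 3) ℝ with hL
  set K' : Set (EuclideanSpace ℝ (Fin 3)) := L ⁻¹' Helper580.PT.K with hK'
  have h1 : Convex ℝ K' := convex_K.linear_preimage (L : EuclideanSpace ℝ (Fin 3) →ₗ[ℝ] (Fin 3 → ℝ))
  have h2 : IsCompact K' := L.toHomeomorph.isCompact_preimage.2 compact_K
  have h3 : (interior K').Nonempty := by
    have e : L.toHomeomorph ⁻¹' interior Helper580.PT.K = interior K' :=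
      L.toHomeomorph.preimage_interior _
    rw [← e]
    exact interior_K.preimage L.surjective
  have hne : {k : ℕ | ∃ t : Fin k → EuclideanSpace ℝ (Fin 3),
      (∀ i, t i ≠ 0) ∧ K' ⊆ ⋃ i, (fun p => t i + p) '' K'}.Nonempty := exists_cover h2 h3
  refine ⟨sInf {k : ℕ | ∃ t : Fin k → EuclideanSpace ℝ (Fin 3),
      (∀ i, t i ≠ 0) ∧ K' ⊆ ⋃ i, (fun p => t i + p) '' K'}, ?_, K', h1, h2, h3,
      Nat.sInf_mem hne, fun k hk => Nat.sInf_le hk⟩
  obtain ⟨t, ht0, hcov⟩ := Nat.sInf_mem hne
  refine (six (Finset.univ.image fun i => L (t i)) ?_ ?_).trans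
    (Finset.card_image_le.trans (by simp))
  · intro s hs
    obtain ⟨i, -, rfl⟩ := Finset.mem_image.1 hs
    intro h0
    exact ht0 i (by simpa using h0)
  · intro x hx
    have hx' : L.symm x ∈ K' := by
      change L (L.symm x) ∈ Helper580.PT.K
      rw [L.apply_symm_apply]; exact hx
    obtain ⟨i, y, hy, hyx⟩ := mem_iUnion.1 (hcov hx')
    refine mem_iUnion₂.2 ⟨L (t i), Finset.mem_image.2 ⟨i, Finset.mem_univ _, rfl⟩, L y, hy, ?_⟩
    have hyx' : t i + y = L.symm x := hyx
    have : L (t i + y) = x := by rw [hyx', L.apply_symm_apply]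
    rw [← this, map_add, add_comm]

end Helper580.PT.SixBody
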